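import Pool.Agent.H34.Park.Semi

/-!
# The affine case
-/

set_option autoImplicit false

open FirstOrder FirstOrder.Language FirstOrder.Language.Structure

namespace Pool.Agent.H34.Park

variable {L : FirstOrder.Language.{0, 0}}

/-- `Bool` as `ZMod 2` -/
def bz (x : Bool) : ZMod 2 := if x then 1 else 0

theorem bz_xor (x y : Bool) : bz (xor x y) = bz x + bz y := by
  cases x <;> cases y <;> decide

theorem bz_inj {x y : Bool} (h : bz x = bz y) : x = y := by
  revert h
  cases x <;> cases y <;> decide

theorem exists_bz (z : ZMod 2) : ∃ x, bz x = z := by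
  revert z
  decide

theorem two_zero (z : ZMod 2) : z + z = 0 := by
  revert z
  decide

/-- affine operations -/
def AffOp {n : ℕ} (F : (Fin n → Bool) → Bool) : Prop :=
  ∃ (β : ZMod 2) (α : Fin n → ZMod 2), ∀ v, bz (F v) = β + ∑ i, α i * bz (v i)

theorem aff_shape {B C : BStr L} (h : PT B C) {m : L.Term (Fin 3)}
    (hm : ∀ x y z, ev B m ![x, y, z] = xor x (xor y z)) :
    (∀ x y z, ev C m ![x, y, z] = xor x (xor y z)) ∨
      (∀ x y z, ev C m ![x, y, z] = !(xor x (xor y z))) := by
  have h1 := h.fst (t := b3 m Y Y X) (fun x y => by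
    simp only [ev_b3, ev_X, ev_Y, hm]
    cases x <;> cases y <;> rfl)
  have h2 := h.fst (t := b3 m Y X Y) (fun x y => by
    simp only [ev_b3, ev_X, ev_Y, hm]
    cases x <;> cases y <;> rfl)
  have h3 := h.fst (t := b3 m X Y Y) (fun x y => by
    simp only [ev_b3, ev_X, ev_Y, hm]
    cases x <;> cases y <;> rfl)
  simp only [ev_b3, ev_X, ev_Y] at h1 h2 h3
  rcases h1 with h1 | h1
  · left
    have h2' : ∀ x y, ev C m ![y, x, y] = x := by
      rcases h2 with h2 | h2
      · exact h2
      · have a1 := h1 true true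
        have a2 := h2 true true
        rw [a1] at a2
        exact absurd a2 (by decide)
    have h3' : ∀ x y, ev C m ![x, y, y] = x := by
      rcases h3 with h3 | h3
      · exact h3
      · have a1 := h1 true true
        have a2 := h3 true true
        rw [a1] at a2
        exact absurd a2 (by decide)
    intro x y z
    cases x <;> cases y <;> cases z <;> first
      | exact h1 _ _
      | exact h2' _ _
      | exact h3' _ _
  · right
    have h2' : ∀ x y, ev C m ![y, x, y] = !x := by
      rcases h2 with h2 | h2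
      · have a1 := h1 true true
        have a2 := h2 true true
        rw [a1] at a2
        exact absurd a2 (by decide)
      · exact h2
    have h3' : ∀ x y, ev C m ![x, y, y] = !x := by
      rcases h3 with h3 | h3
      · have a1 := h1 true true
        have a2 := h3 true true
        rw [a1] at a2
        exact absurd a2 (by decide)
      · exact h3
    intro x y z
    cases x <;> cases y <;> cases z <;> first
      | exact h1 _ _
      | exact h2' _ _
      | exact h3' _ _

/-- a normalised term -/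
theorem aff_norm {B : BStr L} {m : L.Term (Fin 3)}
    (hm : ∀ x y z, ev B m ![x, y, z] = xor x (xor y z)) :
    ∃ s : L.Term (Fin 3), (∀ x y z, ev B s ![x, y, z] = xor x (xor y z)) ∧
      ∀ C, PT B C → ∀ x y z, ev C s ![x, y, z] = xor x (xor y z) := by
  refine ⟨b3 m m (Term.var 2) (Term.var 2), fun x y z => ?_, fun C hC x y z => ?_⟩
  · rw [ev_b3, ev_var, hm, hm]
    cases x <;> cases y <;> cases z <;> rfl
  · rw [ev_b3, ev_var]
    rcases aff_shape hC hm with h1 | h1
    · rw [h1, h1]
      cases x <;> cases y <;> cases z <;> rfl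
    · rw [h1, h1]
      cases x <;> cases y <;> cases z <;> rfl

theorem aff_compl {n : ℕ} {F : (Fin n → Bool) → Bool} (hF : AffOp F) (e : Fin n → Bool) :
    xor (F e) (F (fun k => !(e k))) = xor (F (fun _ => false)) (F (fun _ => true)) := by
  obtain ⟨β, α, h⟩ := hF
  apply bz_inj
  rw [bz_xor, bz_xor, h, h, h, h]
  have h1 : ∑ i, α i * bz (e i) + ∑ i, α i * bz (!(e i)) =
      ∑ i, α i * bz false + ∑ i, α i * bz true := by
    rw [← Finset.sum_add_distrib, ← Finset.sum_add_distrib]
    refine Finset.sum_congr rfl fun i _ => ?_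
    rw [← mul_add, ← mul_add]
    congr 1
    cases e i <;> decide
  linear_combination h1

theorem aff_op {B C : BStr L} (h : PT B C) {s : L.Term (Fin 3)}
    (hsB : ∀ x y z, ev B s ![x, y, z] = xor x (xor y z))
    (hsC : ∀ x y z, ev C s ![x, y, z] = xor x (xor y z))
    {n : ℕ} (f : L.Functions n) (hf : AffOp (B n f)) (e e' : Fin n → Bool) :
    xor (C n f e) (C n f e') = xor (B n f e) (B n f e') := by
  have hq : ∀ D : BStr L, (∀ x y z, ev D s ![x, y, z] = xor x (xor y z)) → ∀ x y,
      ev D (b3 s X (mnr (basic f) e) (mnr (basic f) e')) ![x, y] =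
        xor x (xor (D n f (fun k => if e k then y else x))
          (D n f (fun k => if e' k then y else x))) := by
    intro D hD x y
    rw [ev_b3, ev_X, ev_mnr, ev_mnr, hD, ev_basic, ev_basic]
  have hd : ∀ (e : Fin n → Bool) (x : Bool), (fun k => if e k then x else x) = fun _ => x := by
    intro e x
    funext k
    split_ifs <;> rfl
  have h01 : ∀ e : Fin n → Bool, (fun k => if e k then true else false) = e := by
    intro e
    funext k
    cases e k <;> rfl
  have h10 : ∀ e : Fin n → Bool, (fun k => if e k then false else true) = fun k => !(e k) := by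
    intro e
    funext k
    cases e k <;> rfl
  have hqC : ∀ D : BStr L, (∀ x y z, ev D s ![x, y, z] = xor x (xor y z)) →
      ev D (b3 s X (mnr (basic f) e) (mnr (basic f) e')) ![false, false] = false ∧
      ev D (b3 s X (mnr (basic f) e) (mnr (basic f) e')) ![true, true] = true ∧
      ev D (b3 s X (mnr (basic f) e) (mnr (basic f) e')) ![false, true] =
        xor (D n f e) (D n f e') := by
    intro D hD
    refine ⟨?_, ?_, ?_⟩
    · rw [hq D hD, hd, hd]
      cases D n f (fun _ => false) <;> rfl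
    · rw [hq D hD, hd, hd]
      cases D n f (fun _ => true) <;> rfl
    · rw [hq D hD, h01, h01]
      exact Bool.false_xor _
  obtain ⟨hC0, hC1, hC2⟩ := hqC C hsC
  obtain ⟨hB0, hB1, hB2⟩ := hqC B hsB
  have hB3 : ev B (b3 s X (mnr (basic f) e) (mnr (basic f) e')) ![true, false] =
      !(xor (B n f e) (B n f e')) := by
    rw [hq B hsB, h10, h10]
    have e1 := aff_compl hf e
    have e2 := aff_compl hf e'
    rw [← e2] at e1
    revert e1
    cases B n f e <;> cases B n f e' <;> cases B n f (fun k => !(e k)) <;>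
      cases B n f (fun k => !(e' k)) <;> decide
  rw [← hC2, ← hB2]
  rw [← hB2] at hB3
  generalize b3 s X (mnr (basic f) e) (mnr (basic f) e') = q at *
  cases hv : ev B q ![false, true]
  · rw [hv] at hB3
    have h1 := h.fst (t := q) (fun x y => by
      cases x <;> cases y
      · exact hB0
      · exact hv
      · exact hB3
      · exact hB1)
    rcases h1 with h1 | h1
    · exact h1 _ _
    · rw [h1] at hC0
      exact absurd hC0 (by decide)
  · rw [hv] at hB3
    have h1 := h.snd (t := q) (fun x y => by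
      cases x <;> cases y
      · exact hB0
      · exact hv
      · exact hB3
      · exact hB1)
    rcases h1 with h1 | h1
    · exact h1 _ _
    · rw [h1] at hC0
      exact absurd hC0 (by decide)

/-- extension of homomorphisms in the affine case -/
theorem aff_extend [Finite (BStr L)] {B : BStr L} {m : L.Term (Fin 3)}
    (hm : ∀ x y z, ev B m ![x, y, z] = xor x (xor y z))
    (haff : ∀ n (f : L.Functions n), AffOp (B n f))
    {A : Type} [L.Structure A] (hA : Sep2 L A) {T : L.Substructure A} {c : A} (hc : c ∈ T)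
    {h : A → Bool} (hh : HomOn B T h) : ∃ h' : A → Bool, IsHom B h' ∧ ∀ x ∈ T, h' x = h x := by
  classical
  obtain ⟨s, hsB, hsC⟩ := aff_norm hm
  obtain ⟨l, r, hlr⟩ := exists_eqPair B
  obtain ⟨φ, hφ⟩ : ∃ φ : A → ({g : A → Bool // ∃ C, IsHom C g ∧ PT B C} → ZMod 2),
      ∀ x g, φ x g = bz (g.1 x) + bz (g.1 c) := ⟨fun x g => bz (g.1 x) + bz (g.1 c), fun _ _ => rfl⟩
  have hφc : φ c = 0 := by
    funext g
    rw [hφ]
    exact two_zero _
  have hφs : ∀ x y, φ (o3 s x y c) = φ x + φ y := by
    intro x y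
    funext g
    obtain ⟨g, C, hg, hC⟩ := g
    rw [Pi.add_apply, hφ, hφ, hφ]
    show bz (g (o3 s x y c)) + bz (g c) = bz (g x) + bz (g c) + (bz (g y) + bz (g c))
    rw [hg.o3, hsC C hC, bz_xor, bz_xor]
    ring
  have hwd : ∀ x ∈ T, ∀ y ∈ T, φ x = φ y → h x = h y := by
    intro x hx y hy hxy
    refine hlr.hom (hlr.eq_of_eq hA fun C g hg hP => ?_) hh hx hy
    have h1 := congrFun hxy ⟨g, C, hg, hP⟩
    rw [hφ, hφ] at h1
    exact bz_inj (add_right_cancel h1)
  let W : Submodule (ZMod 2) ({g : A → Bool // ∃ C, IsHom C g ∧ PT B C} → ZMod 2) :=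
    { carrier := {w | ∃ x ∈ T, φ x = w}
      zero_mem' := ⟨c, hc, hφc⟩
      add_mem' := by
        rintro _ _ ⟨x, hx, rfl⟩ ⟨y, hy, rfl⟩
        exact ⟨o3 s x y c, o3_mem s hx hy hc, hφs x y⟩
      smul_mem' := by
        rintro a _ ⟨x, hx, rfl⟩
        obtain ⟨b, rfl⟩ := exists_bz a
        cases b
        · refine ⟨c, hc, ?_⟩
          rw [hφc]
          show (0 : {g : A → Bool // ∃ C, IsHom C g ∧ PT B C} → ZMod 2) = (0 : ZMod 2) • φ x
          rw [zero_smul]
        · refine ⟨x, hx, ?_⟩
          show φ x = (1 : ZMod 2) • φ x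
          rw [one_smul] }
  choose ρ hρT hρ using fun w : W => w.2
  have hval : ∀ (w : W) x, x ∈ T → φ x = w.1 → h (ρ w) = h x := fun w x hx hxw =>
    hwd _ (hρT w) _ hx ((hρ w).trans hxw.symm)
  let lam : W →ₗ[ZMod 2] ZMod 2 :=
    { toFun := fun w => bz (h (ρ w)) + bz (h c)
      map_add' := by
        intro w w'
        have h1 := hval (w + w') (o3 s (ρ w) (ρ w') c) (o3_mem s (hρT w) (hρT w') hc) (by
          rw [hφs, hρ, hρ]
          rfl)
        rw [h1, hh.o3 s (hρT w) (hρT w') hc, hsB, bz_xor, bz_xor]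
        ring
      map_smul' := by
        intro a w
        obtain ⟨b, rfl⟩ := exists_bz a
        cases b
        · have h1 := hval ((0 : ZMod 2) • w) c hc (by
            rw [hφc, zero_smul]
            rfl)
          show bz (h (ρ ((0 : ZMod 2) • w))) + bz (h c) = (0 : ZMod 2) • _
          rw [h1, zero_smul]
          exact two_zero _
        · show bz (h (ρ ((1 : ZMod 2) • w))) + bz (h c) = (1 : ZMod 2) • _
          rw [one_smul, one_smul] }
  obtain ⟨Λ, hΛ⟩ := LinearMap.exists_extend lam
  have hΛT : ∀ x ∈ T, Λ (φ x) = bz (h x) + bz (h c) := by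
    intro x hx
    have h1 := LinearMap.congr_fun hΛ ⟨φ x, x, hx, rfl⟩
    have h2 : lam ⟨φ x, x, hx, rfl⟩ = bz (h x) + bz (h c) := by
      show bz (h (ρ ⟨φ x, x, hx, rfl⟩)) + bz (h c) = _
      rw [hval ⟨φ x, x, hx, rfl⟩ x hx rfl]
    rw [h2] at h1
    exact h1
  choose h' hh' using fun x => exists_bz (Λ (φ x) + bz (h c))
  have hT' : ∀ x ∈ T, h' x = h x := by
    intro x hx
    apply bz_inj
    rw [hh', hΛT x hx, add_assoc, two_zero, add_zero]
  refine ⟨h', fun n f x => ?_, hT'⟩
  obtain ⟨β, α, hα⟩ := haff n f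
  have hφf : φ (funMap f x) = φ (funMap f (fun _ => c)) + ∑ i, α i • φ (x i) := by
    funext g
    obtain ⟨g, C, hg, hC⟩ := g
    rw [Pi.add_apply, Finset.sum_apply, hφ, hφ]
    have h1 : ∀ i, (α i • φ (x i)) ⟨g, C, hg, hC⟩ = α i * (bz (g (x i)) + bz (g c)) := by
      intro i
      rw [Pi.smul_apply, hφ, smul_eq_mul]
    simp only [h1]
    show bz (g (funMap f x)) + bz (g c) = bz (g (funMap f (fun _ => c))) + bz (g c) + _
    rw [hg, hg]
    have h2 := congrArg bz (aff_op hC hsB (hsC C hC) f (haff n f) (fun i => g (x i)) (fun _ => g c))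
    rw [bz_xor, bz_xor, hα, hα] at h2
    have h3 : ∑ i, α i * (bz (g (x i)) + bz (g c)) =
        ∑ i, α i * bz (g (x i)) + ∑ i, α i * bz (g c) := by
      rw [← Finset.sum_add_distrib]
      exact Finset.sum_congr rfl fun i _ => mul_add _ _ _
    rw [h3]
    have h4 := two_zero (bz (C n f (fun _ => g c)))
    have h5 := two_zero β
    linear_combination h2 - h4 + h5
  have hTc : funMap f (fun _ => c) ∈ T := Substructure.fun_mem _ f _ fun _ => hc
  apply bz_inj
  rw [hh', hφf, map_add, map_sum, hΛT _ hTc, hα, hh n f _ fun _ => hc, hα]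
  simp only [hh']
  have h1 : ∀ i, Λ (α i • φ (x i)) = α i * Λ (φ (x i)) := fun i => by
    rw [map_smul, smul_eq_mul]
  simp only [h1]
  have h3 : ∑ i, α i * (Λ (φ (x i)) + bz (h c)) =
      ∑ i, α i * Λ (φ (x i)) + ∑ i, α i * bz (h c) := by
    rw [← Finset.sum_add_distrib]
    exact Finset.sum_congr rfl fun i _ => mul_add _ _ _
  rw [h3]
  have h4 := two_zero (bz (h c))
  linear_combination h4

/-- the affine case -/
theorem good_aff [Finite (BStr L)] {B : BStr L} {m : L.Term (Fin 3)}
    (hm : ∀ x y z, ev B m ![x, y, z] = xor x (xor y z))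
    (haff : ∀ n (f : L.Functions n), AffOp (B n f)) : Good B := by
  classical
  refine ⟨4, fun A _ hA c a1 a2 a3 hno => ?_⟩
  refine ⟨{c, a1, a2, a3}, card4 _ _ _ _, by simp, by simp, by simp, by simp,
    fun h hh h12 h13 => ?_⟩
  have mc : c ∈ (Cl ({c, a1, a2, a3} : Finset A) : L.Substructure A) := mem_Cl (by simp)
  have m1 : a1 ∈ (Cl ({c, a1, a2, a3} : Finset A) : L.Substructure A) := mem_Cl (by simp)
  have m2 : a2 ∈ (Cl ({c, a1, a2, a3} : Finset A) : L.Substructure A) := mem_Cl (by simp)
  have m3 : a3 ∈ (Cl ({c, a1, a2, a3} : Finset A) : L.Substructure A) := mem_Cl (by simp)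
  obtain ⟨h', hh', hT⟩ := aff_extend hm haff hA mc hh
  have := hno h' hh' (by rw [hT _ m1, hT _ m2, h12]) (by rw [hT _ m1, hT _ m3, h13])
  rwa [hT _ mc, hT _ m1] at this

end Pool.Agent.H34.Park
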