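import Mathlib

/-!
# Two-element algebras of a finite signature: term operations and homomorphisms
-/

set_option autoImplicit false

open FirstOrder FirstOrder.Language FirstOrder.Language.Structure

namespace Pool.Agent.H34.Park

variable {L : FirstOrder.Language.{0, 0}}

/-- the operations of an algebra on `Bool` -/
abbrev BStr (L : FirstOrder.Language.{0, 0}) : Type :=
  ∀ n : ℕ, L.Functions n → (Fin n → Bool) → Bool

theorem finite_BStr (hL : Finite (Σ n, L.Functions n)) : Finite (BStr L) := by
  have : Finite (∀ p : (Σ n, L.Functions n), (Fin p.1 → Bool) → Bool) := inferInstance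
  refine Finite.of_injective
    (fun (B : BStr L) => fun p : (Σ n, L.Functions n) => B p.1 p.2) ?_
  intro B C h
  funext n f
  exact congrFun h ⟨n, f⟩

/-- term operations -/
def ev (B : BStr L) {α : Type} : L.Term α → (α → Bool) → Bool
  | Term.var a, v => v a
  | @Term.func _ _ n f ts, v => B n f (fun i => ev B (ts i) v)

theorem ev_var (B : BStr L) {α : Type} (a : α) (v : α → Bool) :
    ev B (Term.var a : L.Term α) v = v a := rfl

theorem ev_func (B : BStr L) {α : Type} {n : ℕ} (f : L.Functions n) (ts : Fin n → L.Term α)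
    (v : α → Bool) : ev B (Term.func f ts) v = B n f (fun i => ev B (ts i) v) := rfl

theorem ev_subst (B : BStr L) {α β : Type} (t : L.Term α) (σ : α → L.Term β) (v : β → Bool) :
    ev B (t.subst σ) v = ev B t (fun a => ev B (σ a) v) := by
  induction t with
  | var a => rfl
  | func f ts ih =>
    simp only [Term.subst, ev_func, ih]

/-- substitution in a binary term -/
def b2 {α : Type} (t : L.Term (Fin 2)) (p q : L.Term α) : L.Term α := t.subst ![p, q]

/-- substitution in a ternary term -/
def b3 {α : Type} (t : L.Term (Fin 3)) (p q r : L.Term α) : L.Term α := t.subst ![p, q, r]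

theorem ev_b2 (B : BStr L) {α : Type} (t : L.Term (Fin 2)) (p q : L.Term α) (v : α → Bool) :
    ev B (b2 t p q) v = ev B t ![ev B p v, ev B q v] := by
  unfold b2
  rw [ev_subst]
  congr 1
  funext i
  fin_cases i <;> rfl

theorem ev_b3 (B : BStr L) {α : Type} (t : L.Term (Fin 3)) (p q r : L.Term α) (v : α → Bool) :
    ev B (b3 t p q r) v = ev B t ![ev B p v, ev B q v, ev B r v] := by
  unfold b3
  rw [ev_subst]
  congr 1
  funext i
  fin_cases i <;> rfl

/-- the two variables -/
def X : L.Term (Fin 2) := Term.var 0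
def Y : L.Term (Fin 2) := Term.var 1

theorem ev_X (B : BStr L) (x y : Bool) : ev B (X : L.Term (Fin 2)) ![x, y] = x := rfl
theorem ev_Y (B : BStr L) (x y : Bool) : ev B (Y : L.Term (Fin 2)) ![x, y] = y := rfl

/-- the binary minor of a term given by a `0-1` vector -/
def mnr {n : ℕ} (t : L.Term (Fin n)) (e : Fin n → Bool) : L.Term (Fin 2) :=
  t.subst (fun k => if e k then Y else X)

theorem ev_mnr (B : BStr L) {n : ℕ} (t : L.Term (Fin n)) (e : Fin n → Bool) (x y : Bool) :
    ev B (mnr t e) ![x, y] = ev B t (fun k => if e k then y else x) := by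
  unfold mnr
  rw [ev_subst]
  congr 1
  funext k
  split_ifs <;> rfl

theorem ev_mnr_self (B : BStr L) {n : ℕ} (t : L.Term (Fin n)) (e : Fin n → Bool) :
    ev B (mnr t e) ![false, true] = ev B t e := by
  rw [ev_mnr]
  congr 1
  funext k
  cases e k <;> rfl

/-- the term `f (x_0, ..., x_{n-1})` -/
def basic {n : ℕ} (f : L.Functions n) : L.Term (Fin n) := Term.func f Term.var

theorem ev_basic (B : BStr L) {n : ℕ} (f : L.Functions n) (v : Fin n → Bool) :
    ev B (basic f) v = B n f v := rfl

section Hom

variable {A : Type} [L.Structure A]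

/-- homomorphisms to a two-element algebra -/
def IsHom (B : BStr L) (h : A → Bool) : Prop :=
  ∀ (n : ℕ) (f : L.Functions n) (x : Fin n → A), h (funMap f x) = B n f (fun i => h (x i))

/-- homomorphisms from a subalgebra to a two-element algebra -/
def HomOn (B : BStr L) (T : L.Substructure A) (h : A → Bool) : Prop :=
  ∀ (n : ℕ) (f : L.Functions n) (x : Fin n → A), (∀ i, x i ∈ T) →
    h (funMap f x) = B n f (fun i => h (x i))

theorem IsHom.homOn {B : BStr L} {h : A → Bool} (hh : IsHom B h) (T : L.Substructure A) :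
    HomOn B T h := fun n f x _ => hh n f x

theorem HomOn.mono {B : BStr L} {T U : L.Substructure A} {h : A → Bool} (hh : HomOn B T h)
    (hU : U ≤ T) : HomOn B U h := fun n f x hx => hh n f x fun i => hU (hx i)

theorem HomOn.realize {B : BStr L} {T : L.Substructure A} {h : A → Bool} (hh : HomOn B T h)
    {α : Type} (t : L.Term α) (v : α → A) (hv : ∀ a, v a ∈ T) :
    h (t.realize v) = ev B t (fun a => h (v a)) := by
  induction t with
  | var a => rfl
  | func f ts ih =>
    rw [Term.realize_func, ev_func, hh _ f _ (fun i => (ts i).realize_mem v hv)]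
    congr 1
    funext i
    exact ih i

theorem IsHom.realize {B : BStr L} {h : A → Bool} (hh : IsHom B h) {α : Type} (t : L.Term α)
    (v : α → A) : h (t.realize v) = ev B t (fun a => h (v a)) :=
  (hh.homOn ⊤).realize t v fun _ => trivial

/-- two-valued homomorphisms separate the points -/
def Sep2 (L : FirstOrder.Language.{0, 0}) (A : Type) [L.Structure A] : Prop :=
  ∀ x y : A, x ≠ y → ∃ (C : BStr L) (h : A → Bool), IsHom C h ∧ h x ≠ h y

/-- value of a binary term in an algebra -/
def o2 (t : L.Term (Fin 2)) (x y : A) : A := t.realize ![x, y]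

/-- value of a ternary term in an algebra -/
def o3 (t : L.Term (Fin 3)) (x y z : A) : A := t.realize ![x, y, z]

theorem o2_mem {T : L.Substructure A} (t : L.Term (Fin 2)) {x y : A} (hx : x ∈ T) (hy : y ∈ T) :
    o2 t x y ∈ T := by
  refine Term.realize_mem t _ fun i => ?_
  fin_cases i
  · exact hx
  · exact hy

theorem o3_mem {T : L.Substructure A} (t : L.Term (Fin 3)) {x y z : A} (hx : x ∈ T) (hy : y ∈ T)
    (hz : z ∈ T) : o3 t x y z ∈ T := by
  refine Term.realize_mem t _ fun i => ?_
  fin_cases i
  · exact hx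
  · exact hy
  · exact hz

theorem HomOn.o2 {B : BStr L} {T : L.Substructure A} {h : A → Bool} (hh : HomOn B T h)
    (t : L.Term (Fin 2)) {x y : A} (hx : x ∈ T) (hy : y ∈ T) :
    h (Park.o2 t x y) = ev B t ![h x, h y] := by
  unfold Park.o2
  rw [hh.realize]
  · congr 1
    funext i
    fin_cases i <;> rfl
  · intro i
    fin_cases i
    · exact hx
    · exact hy

theorem HomOn.o3 {B : BStr L} {T : L.Substructure A} {h : A → Bool} (hh : HomOn B T h)
    (t : L.Term (Fin 3)) {x y z : A} (hx : x ∈ T) (hy : y ∈ T) (hz : z ∈ T) :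
    h (Park.o3 t x y z) = ev B t ![h x, h y, h z] := by
  unfold Park.o3
  rw [hh.realize]
  · congr 1
    funext i
    fin_cases i <;> rfl
  · intro i
    fin_cases i
    · exact hx
    · exact hy
    · exact hz

theorem IsHom.o2 {B : BStr L} {h : A → Bool} (hh : IsHom B h) (t : L.Term (Fin 2)) (x y : A) :
    h (Park.o2 t x y) = ev B t ![h x, h y] :=
  (hh.homOn ⊤).o2 t trivial trivial

theorem IsHom.o3 {B : BStr L} {h : A → Bool} (hh : IsHom B h) (t : L.Term (Fin 3)) (x y z : A) :
    h (Park.o3 t x y z) = ev B t ![h x, h y, h z] :=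
  (hh.homOn ⊤).o3 t trivial trivial trivial

end Hom

end Pool.Agent.H34.Park
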