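import Pool.Agent.H34.Park.Unary

/-!
# Classification of the two-element algebras
-/

set_option autoImplicit false

open FirstOrder FirstOrder.Language FirstOrder.Language.Structure

namespace Pool.Agent.H34.Park

variable {L : FirstOrder.Language.{0, 0}}

/-! ### duality -/

/-- the dual algebra -/
def dual (B : BStr L) : BStr L := fun n f v => !(B n f (fun i => !(v i)))

theorem ev_dual (B : BStr L) {α : Type} (t : L.Term α) (v : α → Bool) :
    ev (dual B) t v = !(ev B t (fun a => !(v a))) := by
  induction t with
  | var a =>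
    rw [ev_var, ev_var, Bool.not_not]
  | func f ts ih =>
    rw [ev_func, ev_func]
    simp only [ih, dual, Bool.not_not]

theorem dual_homOn {A : Type} [L.Structure A] {B : BStr L} {T : L.Substructure A} {h : A → Bool}
    (hh : HomOn B T h) : HomOn (dual B) T (fun x => !(h x)) := by
  intro n f x hx
  show (!(h (funMap f x))) = !(B n f (fun i => !(!(h (x i)))))
  rw [hh n f x hx]
  simp only [Bool.not_not]

theorem dual_dual (B : BStr L) : dual (dual B) = B := by
  funext n f v
  simp only [dual, Bool.not_not]

theorem dual_isHom {A : Type} [L.Structure A] {B : BStr L} {h : A → Bool}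
    (hh : IsHom B h) : IsHom (dual B) (fun x => !(h x)) := by
  intro n f x
  show (!(h (funMap f x))) = !(B n f (fun i => !(!(h (x i)))))
  rw [hh n f x]
  simp only [Bool.not_not]

theorem good_dual {B : BStr L} (h : Good (dual B)) : Good B := by
  obtain ⟨m, hm⟩ := h
  refine ⟨m, fun A _ hA c a1 a2 a3 hno => ?_⟩
  obtain ⟨G, hG, hc, h1, h2, h3, hG2⟩ := hm A hA c a1 a2 a3 (fun h hh h12 h13 => by
    have hh' := dual_isHom hh
    rw [dual_dual] at hh'
    have := hno _ hh' (by rw [h12]) (by rw [h13])
    revert this
    cases h c <;> cases h a1 <;> decide)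
  refine ⟨G, hG, hc, h1, h2, h3, fun h hh h12 h13 => ?_⟩
  have := hG2 _ (dual_homOn hh) (by rw [h12]) (by rw [h13])
  revert this
  cases h c <;> cases h a1 <;> decide

/-! ### term operations -/

/-- binary term operations -/
def TF2 (B : BStr L) (F : Bool → Bool → Bool) : Prop :=
  ∃ t : L.Term (Fin 2), ∀ x y, ev B t ![x, y] = F x y

/-- ternary term operations -/
def TF3 (B : BStr L) (F : Bool → Bool → Bool → Bool) : Prop :=
  ∃ t : L.Term (Fin 3), ∀ x y z, ev B t ![x, y, z] = F x y z

theorem TF2.x (B : BStr L) : TF2 B (fun x _ => x) := ⟨Term.var 0, fun _ _ => rfl⟩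
theorem TF2.y (B : BStr L) : TF2 B (fun _ y => y) := ⟨Term.var 1, fun _ _ => rfl⟩
theorem TF3.x (B : BStr L) : TF3 B (fun x _ _ => x) := ⟨Term.var 0, fun _ _ _ => rfl⟩
theorem TF3.y (B : BStr L) : TF3 B (fun _ y _ => y) := ⟨Term.var 1, fun _ _ _ => rfl⟩
theorem TF3.z (B : BStr L) : TF3 B (fun _ _ z => z) := ⟨Term.var 2, fun _ _ _ => rfl⟩

theorem TF2.op {B : BStr L} {n : ℕ} (f : L.Functions n) {P : Fin n → Bool → Bool → Bool}
    (h : ∀ k, TF2 B (P k)) : TF2 B (fun x y => B n f (fun k => P k x y)) := by
  choose t ht using h
  refine ⟨Term.func f t, fun x y => ?_⟩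
  rw [ev_func]
  simp only [ht]

theorem TF3.op {B : BStr L} {n : ℕ} (f : L.Functions n) {P : Fin n → Bool → Bool → Bool → Bool}
    (h : ∀ k, TF3 B (P k)) : TF3 B (fun x y z => B n f (fun k => P k x y z)) := by
  choose t ht using h
  refine ⟨Term.func f t, fun x y z => ?_⟩
  rw [ev_func]
  simp only [ht]

theorem TF2.c2 {B : BStr L} {F P Q : Bool → Bool → Bool} (hF : TF2 B F) (hP : TF2 B P)
    (hQ : TF2 B Q) : TF2 B (fun x y => F (P x y) (Q x y)) := by
  obtain ⟨t, ht⟩ := hF
  obtain ⟨p, hp⟩ := hP
  obtain ⟨q, hq⟩ := hQ
  exact ⟨b2 t p q, fun x y => by rw [ev_b2, hp, hq, ht]⟩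

theorem TF2.c3 {B : BStr L} {F : Bool → Bool → Bool → Bool} {P Q R : Bool → Bool → Bool}
    (hF : TF3 B F) (hP : TF2 B P) (hQ : TF2 B Q) (hR : TF2 B R) :
    TF2 B (fun x y => F (P x y) (Q x y) (R x y)) := by
  obtain ⟨t, ht⟩ := hF
  obtain ⟨p, hp⟩ := hP
  obtain ⟨q, hq⟩ := hQ
  obtain ⟨r, hr⟩ := hR
  exact ⟨b3 t p q r, fun x y => by rw [ev_b3, hp, hq, hr, ht]⟩

theorem TF3.c2 {B : BStr L} {F : Bool → Bool → Bool} {P Q : Bool → Bool → Bool → Bool}
    (hF : TF2 B F) (hP : TF3 B P) (hQ : TF3 B Q) :
    TF3 B (fun x y z => F (P x y z) (Q x y z)) := by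
  obtain ⟨t, ht⟩ := hF
  obtain ⟨p, hp⟩ := hP
  obtain ⟨q, hq⟩ := hQ
  exact ⟨b2 t p q, fun x y z => by rw [ev_b2, hp, hq, ht]⟩

theorem TF3.c3 {B : BStr L} {F P Q R : Bool → Bool → Bool → Bool}
    (hF : TF3 B F) (hP : TF3 B P) (hQ : TF3 B Q) (hR : TF3 B R) :
    TF3 B (fun x y z => F (P x y z) (Q x y z) (R x y z)) := by
  obtain ⟨t, ht⟩ := hF
  obtain ⟨p, hp⟩ := hP
  obtain ⟨q, hq⟩ := hQ
  obtain ⟨r, hr⟩ := hR
  exact ⟨b3 t p q r, fun x y z => by rw [ev_b3, hp, hq, hr, ht]⟩

theorem TF2.congr {B : BStr L} {F F' : Bool → Bool → Bool} (h : TF2 B F)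
    (hF : ∀ x y, F x y = F' x y) : TF2 B F' := by
  obtain ⟨t, ht⟩ := h
  exact ⟨t, fun x y => by rw [ht, hF]⟩

theorem TF3.congr {B : BStr L} {F F' : Bool → Bool → Bool → Bool} (h : TF3 B F)
    (hF : ∀ x y z, F x y z = F' x y z) : TF3 B F' := by
  obtain ⟨t, ht⟩ := h
  exact ⟨t, fun x y z => by rw [ht, hF]⟩

/-! ### finite facts -/

/-- binary function from its table -/
def fn4 (a b c d : Bool) (x y : Bool) : Bool :=
  cond x (cond y d c) (cond y b a)

/-- ternary function from its table -/
def fn8 (a b c d e f g h : Bool) (x y z : Bool) : Bool :=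
  cond x (cond y (cond z h g) (cond z f e)) (cond y (cond z d c) (cond z b a))

theorem fn4_eq (F : Bool → Bool → Bool) :
    F = fn4 (F false false) (F false true) (F true false) (F true true) := by
  funext x y
  cases x <;> cases y <;> rfl

theorem fn8_eq (F : Bool → Bool → Bool → Bool) :
    F = fn8 (F false false false) (F false false true) (F false true false) (F false true true)
      (F true false false) (F true false true) (F true true false) (F true true true) := by
  funext x y z
  cases x <;> cases y <;> cases z <;> rfl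

/-- an odd number of ones -/
def Odd2 (g : Bool → Bool → Bool) : Prop :=
  xor (xor (g false false) (g false true)) (xor (g true false) (g true true)) = true

instance (g : Bool → Bool → Bool) : Decidable (Odd2 g) := by
  unfold Odd2
  infer_instance

theorem fact2 : ∀ a b c d : Bool, Odd2 (fn4 a b c d) →
    (∀ x y, fn4 a b c d x y = (x && y)) ∨ (∀ x y, fn4 a b c d x y = (x || y)) ∨
    (∀ x y, fn4 a b c d x (fn4 a b c d x y) = (x && y)) ∨
    (∀ x y, fn4 a b c d x (fn4 a b c d x y) = (x || y)) ∨
    (∀ x y, fn4 a b c d (fn4 a b c d x y) y = (x && y)) ∨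
    (∀ x y, fn4 a b c d (fn4 a b c d x y) y = (x || y)) ∨
    (∀ x y, fn4 a b c d (fn4 a b c d x x) (fn4 a b c d y y) = (x && y)) ∨
    (∀ x y, fn4 a b c d (fn4 a b c d x x) (fn4 a b c d y y) = (x || y)) := by
  decide

theorem odd_and_or {B : BStr L} {g : Bool → Bool → Bool} (hg : TF2 B g) (h : Odd2 g) :
    TF2 B (fun x y => x && y) ∨ TF2 B (fun x y => x || y) := by
  have h0 := fn4_eq g
  generalize g false false = a at h0
  generalize g false true = b at h0
  generalize g true false = c at h0
  generalize g true true = d at h0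
  subst h0
  have e1 := TF2.c2 hg (TF2.x B) hg
  have e2 := TF2.c2 hg hg (TF2.y B)
  have e3 := TF2.c2 hg (TF2.c2 hg (TF2.x B) (TF2.x B)) (TF2.c2 hg (TF2.y B) (TF2.y B))
  rcases fact2 a b c d h with h | h | h | h | h | h | h | h
  · exact Or.inl (hg.congr h)
  · exact Or.inr (hg.congr h)
  · exact Or.inl (e1.congr h)
  · exact Or.inr (e1.congr h)
  · exact Or.inl (e2.congr h)
  · exact Or.inr (e2.congr h)
  · exact Or.inl (e3.congr h)
  · exact Or.inr (e3.congr h)

/-- the normalisation of a ternary function -/
def nf (F : Bool → Bool → Bool → Bool) (x y z : Bool) : Bool :=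
  F (F x y z) (F x y z) (F x y z)

theorem fact3 : ∀ a b c d e f g h : Bool, xor (xor a b) (xor c d) = true →
    Odd2 (fun x y => fn8 a b c d e f g h x x y) ∨
    Odd2 (fun x y => fn8 a b c d e f g h x y x) ∨
    Odd2 (fun x y => fn8 a b c d e f g h y x x) ∨
    Odd2 (fun x y => fn8 a b c d e f g h x y (fn8 a b c d e f g h x x x)) ∨
    (∀ x y z, nf (fn8 a b c d e f g h) x y z = maj x y z) ∨
    (∀ x y z, nf (fn8 a b c d e f g h) (nf (fn8 a b c d e f g h) x y z) y z = maj x y z) ∨
    (∀ x y z, nf (fn8 a b c d e f g h) x (nf (fn8 a b c d e f g h) x y z) z = maj x y z) ∨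
    (∀ x y z, nf (fn8 a b c d e f g h) x y (nf (fn8 a b c d e f g h) x y z) = maj x y z) := by
  decide

theorem tern_case {B : BStr L} {F : Bool → Bool → Bool → Bool} (hF : TF3 B F)
    (h : xor (xor (F false false false) (F false false true))
      (xor (F false true false) (F false true true)) = true) :
    (∃ g, TF2 B g ∧ Odd2 g) ∨ TF3 B maj := by
  have h0 := fn8_eq F
  generalize F false false false = a at h h0
  generalize F false false true = b at h h0
  generalize F false true false = c at h h0
  generalize F false true true = d at h h0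
  generalize F true false false = e at h0
  generalize F true false true = f at h0
  generalize F true true false = g at h0
  generalize F true true true = i at h0
  subst h0
  have hn : TF3 B (nf (fn8 a b c d e f g i)) :=
    TF3.congr (TF3.c3 (F := fn8 a b c d e f g i) hF hF hF hF) fun _ _ _ => rfl
  have k1 := TF3.c3 hn hn (TF3.y B) (TF3.z B)
  have k2 := TF3.c3 hn (TF3.x B) hn (TF3.z B)
  have k3 := TF3.c3 hn (TF3.x B) (TF3.y B) hn
  rcases fact3 a b c d e f g i h with h | h | h | h | h | h | h | h
  · exact Or.inl ⟨_, TF2.c3 hF (TF2.x B) (TF2.x B) (TF2.y B), h⟩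
  · exact Or.inl ⟨_, TF2.c3 hF (TF2.x B) (TF2.y B) (TF2.x B), h⟩
  · exact Or.inl ⟨_, TF2.c3 hF (TF2.y B) (TF2.x B) (TF2.x B), h⟩
  · exact Or.inl ⟨_, TF2.c3 hF (TF2.x B) (TF2.y B) (TF2.c3 hF (TF2.x B) (TF2.x B) (TF2.x B)), h⟩
  · exact Or.inr (hn.congr h)
  · exact Or.inr (k1.congr h)
  · exact Or.inr (k2.congr h)
  · exact Or.inr (k3.congr h)

/-! ### non-affine operations -/

/-- indicator of a finite set -/
def ind {n : ℕ} (S : Finset (Fin n)) : Fin n → Bool := fun k => decide (k ∈ S)

theorem ind_update_true {n : ℕ} (S : Finset (Fin n)) (i : Fin n) :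
    Function.update (ind S) i true = ind (insert i S) := by
  funext k
  by_cases h : k = i
  · subst h
    simp [ind]
  · simp [ind, h]

theorem ind_update_false {n : ℕ} {S : Finset (Fin n)} {i : Fin n} (hi : i ∉ S) :
    Function.update (ind S) i false = ind S := by
  funext k
  by_cases h : k = i
  · subst h
    simp [ind, hi]
  · simp [Function.update_of_ne h]

theorem aff_of_diff {n : ℕ} {F : (Fin n → Bool) → Bool}
    (h : ∀ (v : Fin n → Bool) (i j : Fin n), i ≠ j →
      xor (xor (F (Function.update (Function.update v i false) j false))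
        (F (Function.update (Function.update v i false) j true)))
      (xor (F (Function.update (Function.update v i true) j false))
        (F (Function.update (Function.update v i true) j true))) = false) : AffOp F := by
  classical
  have h1 : ∀ S : Finset (Fin n), ∀ i ∉ S,
      bz (F (ind (insert i S))) + bz (F (ind S)) = bz (F (ind {i})) + bz (F (ind ∅)) := by
    intro S
    induction S using Finset.induction_on with
    | empty =>
      intro i _
      rfl
    | insert j S hj ih =>
      intro i hi
      have hij : i ≠ j := by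
        rintro rfl
        exact hi (Finset.mem_insert_self _ _)
      have hiS : i ∉ S := fun h => hi (Finset.mem_insert_of_mem h)
      have e1 := congrArg bz (h (ind S) i j hij)
      have e2 := ih i hiS
      have hj' : j ∉ insert i S := by
        rw [Finset.mem_insert]
        rintro (h | h)
        · exact hij h.symm
        · exact hj h
      rw [ind_update_false hiS, ind_update_true, ind_update_false hj, ind_update_true,
        ind_update_false hj', ind_update_true, bz_xor, bz_xor, bz_xor] at e1
      have e3 : bz false = 0 := rfl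
      rw [e3] at e1
      rw [← e2, Finset.insert_comm i j S]
      have e4 := two_zero (bz (F (ind S)))
      have e5 := two_zero (bz (F (ind (insert i S))))
      linear_combination e1 - e4 - e5
  have h2 : ∀ S : Finset (Fin n), bz (F (ind S)) =
      bz (F (ind ∅)) + ∑ i ∈ S, (bz (F (ind {i})) + bz (F (ind ∅))) := by
    intro S
    induction S using Finset.induction_on with
    | empty =>
      rw [Finset.sum_empty, add_zero]
    | insert j S hj ih =>
      rw [Finset.sum_insert hj, ← h1 S j hj]
      have e4 := two_zero (bz (F (ind S)))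
      linear_combination ih - e4
  refine ⟨bz (F (ind ∅)), fun i => bz (F (ind {i})) + bz (F (ind ∅)), fun v => ?_⟩
  have h3 : v = ind (Finset.univ.filter fun i => v i = true) := by
    funext k
    cases hk : v k <;> simp [ind, hk]
  have h4 : F v = F (ind (Finset.univ.filter fun i => v i = true)) := by rw [← h3]
  rw [h4, h2, Finset.sum_filter]
  congr 1
  refine Finset.sum_congr rfl fun i _ => ?_
  cases hi : v i
  · rw [if_neg (by decide)]
    exact (mul_zero _).symm
  · rw [if_pos rfl]
    exact (mul_one _).symm

theorem nonaff_case {B : BStr L} {n : ℕ} (f : L.Functions n) (h : ¬ AffOp (B n f)) :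
    (∃ g, TF2 B g ∧ Odd2 g) ∨ TF3 B maj := by
  classical
  have hex : ∃ (v : Fin n → Bool) (i j : Fin n), i ≠ j ∧
      xor (xor (B n f (Function.update (Function.update v i false) j false))
        (B n f (Function.update (Function.update v i false) j true)))
      (xor (B n f (Function.update (Function.update v i true) j false))
        (B n f (Function.update (Function.update v i true) j true))) = true := by
    by_contra hcon
    push Not at hcon
    refine h (aff_of_diff fun v i j hij => ?_)
    exact Bool.eq_false_of_not_eq_true (hcon v i j hij)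
  obtain ⟨v, i, j, _, hv⟩ := hex
  obtain ⟨Φ, hΦ⟩ : ∃ Φ : Bool → Bool → Bool → Bool → Bool, ∀ o w s t, Φ o w s t =
      B n f (Function.update (Function.update (fun k => cond (v k) w o) i s) j t) :=
    ⟨_, fun _ _ _ _ => rfl⟩
  have hTF : ∀ P Q R S, TF3 B P → TF3 B Q → TF3 B R → TF3 B S →
      TF3 B (fun x y z => Φ (P x y z) (Q x y z) (R x y z) (S x y z)) := by
    intro P Q R S hP hQ hR hS
    refine TF3.congr (TF3.op f (P := fun k x y z => if k = j then S x y z else
      if k = i then R x y z else cond (v k) (Q x y z) (P x y z)) fun k => ?_) fun x y z => ?_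
    · by_cases hj : k = j
      · simp only [if_pos hj]
        exact hS
      · by_cases hi : k = i
        · simp only [if_neg hj, if_pos hi]
          exact hR
        · simp only [if_neg hj, if_neg hi]
          cases v k
          · exact hP
          · exact hQ
    · rw [hΦ]
      congr 1
      funext k
      by_cases hj : k = j
      · subst hj
        simp
      · by_cases hi : k = i
        · subst hi
          simp [hj]
        · simp [hj, hi]
  have hv' : (fun k => cond (v k) true false) = v := by
    funext k
    cases v k <;> rfl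
  have hs : xor (xor (Φ false true false false) (Φ false true false true))
      (xor (Φ false true true false) (Φ false true true true)) = true := by
    rw [hΦ, hΦ, hΦ, hΦ, hv', hv]
  have k0 := hTF _ _ _ _ (TF3.x B) (TF3.y B) (TF3.x B) (TF3.z B)
  have k1 := hTF _ _ _ _ (TF3.x B) (TF3.y B) (TF3.y B) (TF3.z B)
  have hor : xor (xor (Φ false false false false) (Φ false false false true))
      (xor (Φ false true false false) (Φ false true false true)) = true ∨
      xor (xor (Φ false false false false) (Φ false false false true))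
      (xor (Φ false true true false) (Φ false true true true)) = true := by
    revert hs
    generalize Φ false true false false = a
    generalize Φ false true false true = b
    generalize Φ false true true false = c
    generalize Φ false true true true = d
    generalize Φ false false false false = e
    generalize Φ false false false true = g
    revert a b c d e g
    decide
  rcases hor with h1 | h1
  · exact tern_case k0 h1
  · exact tern_case k1 h1

/-! ### majority without odd binary terms -/

theorem fact4 : ∀ a b d : Bool, Odd2 (fn4 a b b d) ∨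
    Odd2 (fun x y => maj x y (fn4 a b b d x x)) := by
  decide

theorem selfdual_of {B : BStr L} (hm : TF3 B maj) (hno : ¬ ∃ g, TF2 B g ∧ Odd2 g) :
    ∀ n (f : L.Functions n) v, B n f (fun i => !(v i)) = !(B n f v) := by
  intro n f v
  by_contra hne
  refine hno ?_
  have ht : TF2 B (fun x y => B n f (fun k => cond (v k) y x)) := by
    refine TF2.op f (P := fun k x y => cond (v k) y x) fun k => ?_
    cases v k
    · exact TF2.x B
    · exact TF2.y B
  have h01 : B n f (fun k => cond (v k) true false) = B n f v := by
    congr 1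
    funext k
    cases v k <;> rfl
  have h10 : B n f (fun k => cond (v k) false true) = B n f v := by
    have h2 : B n f (fun i => !(v i)) = B n f v := by
      revert hne
      cases B n f (fun i => !(v i)) <;> cases B n f v <;> decide
    refine Eq.trans (congrArg (B n f) (funext fun k => ?_)) h2
    cases v k <;> rfl
  obtain ⟨T, hT⟩ : ∃ T : Bool → Bool → Bool, T = fun x y => B n f (fun k => cond (v k) y x) :=
    ⟨_, rfl⟩
  have e1 := fn4_eq T
  have e2 : T false true = T true false := by
    rw [hT]
    exact h01.trans h10.symm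
  rw [← hT] at ht
  rw [← e2] at e1
  generalize T false false = a at e1
  generalize T false true = b at e1
  generalize T true true = d at e1
  subst e1
  rcases fact4 a b d with h | h
  · exact ⟨_, ht, h⟩
  · exact ⟨_, TF2.c3 hm (TF2.x B) (TF2.y B) (TF2.c2 ht (TF2.x B) (TF2.x B)), h⟩

/-! ### affine algebras -/

theorem aff_case {B : BStr L} (haff : ∀ n (f : L.Functions n), AffOp (B n f)) :
    (∀ n (f : L.Functions n), UnOp (B n f)) ∨ TF3 B (fun x y z => xor x (xor y z)) := by
  classical
  by_cases hun : ∀ n (f : L.Functions n), UnOp (B n f)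
  · exact Or.inl hun
  right
  push Not at hun
  obtain ⟨n, f, hf⟩ := hun
  obtain ⟨β, α, hα⟩ := haff n f
  have h01 : ∀ z : ZMod 2, z = 0 ∨ z = 1 := by decide
  have hij : ∃ i j : Fin n, i ≠ j ∧ α i = 1 ∧ α j = 1 := by
    by_contra hcon
    push Not at hcon
    refine hf ?_
    obtain ⟨b, hb⟩ := exists_bz β
    by_cases hi : ∃ i, α i = 1
    · obtain ⟨i, hi⟩ := hi
      refine Or.inr ⟨i, b, fun v => bz_inj ?_⟩
      rw [hα, bz_xor, hb, Finset.sum_eq_single i]
      · rw [hi, one_mul]
      · intro k _ hk
        rcases h01 (α k) with h | h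
        · rw [h, zero_mul]
        · exact absurd h (hcon i k (Ne.symm hk) hi)
      · intro h
        exact absurd (Finset.mem_univ _) h
    · push Not at hi
      refine Or.inl ⟨b, fun v => bz_inj ?_⟩
      rw [hα, hb, Finset.sum_eq_zero, add_zero]
      intro k _
      rcases h01 (α k) with h | h
      · rw [h, zero_mul]
      · exact absurd h (hi k)
  obtain ⟨i, j, hij, hi, hj⟩ := hij
  obtain ⟨T, hT⟩ : ∃ T : Bool → Bool → Bool → Bool, ∀ x y z, T x y z =
      B n f (fun k => if k = i then x else if k = j then y else z) := ⟨_, fun _ _ _ => rfl⟩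
  have hTT : TF3 B T := by
    refine TF3.congr (TF3.op f (P := fun k x y z => if k = i then x else
      if k = j then y else z) fun k => ?_) fun x y z => (hT x y z).symm
    by_cases h1 : k = i
    · simp only [if_pos h1]
      exact TF3.x B
    · by_cases h2 : k = j
      · simp only [if_neg h1, if_pos h2]
        exact TF3.y B
      · simp only [if_neg h1, if_neg h2]
        exact TF3.z B
  have hval : ∀ x y z, bz (T x y z) = β + (∑ k, α k) * bz z + (bz x + bz z) + (bz y + bz z) := by
    intro x y z
    rw [hT, hα]
    have h1 : ∀ k, α k * bz (if k = i then x else if k = j then y else z) =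
        α k * bz z + (if k = i then bz x + bz z else 0) + (if k = j then bz y + bz z else 0) := by
      intro k
      by_cases h1 : k = i
      · subst h1
        rw [if_pos rfl, if_pos rfl, if_neg hij, hi]
        have := two_zero (bz z)
        linear_combination -this
      · by_cases h2 : k = j
        · subst h2
          rw [if_neg h1, if_pos rfl, if_neg h1, if_pos rfl, hj]
          have := two_zero (bz z)
          linear_combination -this
        · rw [if_neg h1, if_neg h2, if_neg h1, if_neg h2]
          ring
    rw [Finset.sum_congr rfl fun k _ => h1 k, Finset.sum_add_distrib, Finset.sum_add_distrib,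
      Finset.sum_ite_eq' Finset.univ i, Finset.sum_ite_eq' Finset.univ j,
      if_pos (Finset.mem_univ _), if_pos (Finset.mem_univ _), Finset.sum_mul]
    ring
  refine TF3.congr (TF3.c3 hTT hTT (TF3.z B) (TF3.z B)) fun x y z => bz_inj ?_
  rw [hval, hval, bz_xor, bz_xor]
  generalize ∑ k, α k = A
  have e1 := two_zero β
  have e2 := two_zero (A * bz z)
  have e3 := two_zero (bz z)
  linear_combination e1 + e2 + 2 * e3

/-! ### algebras with a join term -/

theorem join_case {B : BStr L} (hj : TF2 B (fun x y => x || y)) :
    (∀ n (f : L.Functions n) v w, B n f (fun i => v i || w i) = (B n f v || B n f w)) ∨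
      TF3 B pif := by
  by_cases hs : ∀ n (f : L.Functions n) v w,
      B n f (fun i => v i || w i) = (B n f v || B n f w)
  · exact Or.inl hs
  right
  push Not at hs
  obtain ⟨n, f, v, w, hne⟩ := hs
  -- it is enough to treat two shapes
  have key : ∀ v w : Fin n → Bool,
      (B n f v = false ∧ B n f w = false ∧ B n f (fun i => v i || w i) = true) ∨
      (B n f v = true ∧ B n f (fun i => v i || w i) = false) → TF3 B pif := by
    intro v w hvw
    obtain ⟨Φ, hΦ⟩ : ∃ Φ : Bool → Bool → Bool → Bool → Bool, ∀ o p q r, Φ o p q r =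
        B n f (fun k => cond (v k) (cond (w k) r p) (cond (w k) q o)) :=
      ⟨_, fun _ _ _ _ => rfl⟩
    have hTF : ∀ P Q R S, TF3 B P → TF3 B Q → TF3 B R → TF3 B S →
        TF3 B (fun x y z => Φ (P x y z) (Q x y z) (R x y z) (S x y z)) := by
      intro P Q R S hP hQ hR hS
      refine TF3.congr (TF3.op f (P := fun k x y z => cond (v k) (cond (w k) (S x y z) (Q x y z))
        (cond (w k) (R x y z) (P x y z))) fun k => ?_) fun x y z => (hΦ _ _ _ _).symm
      cases v k <;> cases w k
      · exact hP
      · exact hR
      · exact hQ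
      · exact hS
    have e1 : Φ false true false true = B n f v := by
      rw [hΦ]
      congr 1
      funext k
      cases v k <;> cases w k <;> rfl
    have e2 : Φ false false true true = B n f w := by
      rw [hΦ]
      congr 1
      funext k
      cases v k <;> cases w k <;> rfl
    have e3 : Φ false true true true = B n f (fun i => v i || w i) := by
      rw [hΦ]
      congr 1
      funext k
      cases v k <;> cases w k <;> rfl
    have jxy : TF3 B (fun x y _ => x || y) := TF3.c2 hj (TF3.x B) (TF3.y B)
    have jxz : TF3 B (fun x _ z => x || z) := TF3.c2 hj (TF3.x B) (TF3.z B)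
    have jxyz : TF3 B (fun x y z => x || (y || z)) :=
      TF3.c2 hj (TF3.x B) (TF3.c2 hj (TF3.y B) (TF3.z B))
    rcases hvw with ⟨h1, h2, h3⟩ | ⟨h1, h3⟩
    · rw [h1] at e1
      rw [h2] at e2
      rw [h3] at e3
      have hψ := TF3.c2 hj (TF3.x B) (hTF _ _ _ _ (TF3.x B) jxy jxz jxyz)
      cases hκ : Φ false false false false
      · refine hψ.congr fun x y z => ?_
        cases x <;> cases y <;> cases z <;> simp [e1, e2, e3, hκ, pif]
      · refine (TF3.c3 hψ (TF3.x B) hψ jxyz).congr fun x y z => ?_
        cases x <;> cases y <;> cases z <;> simp [e1, e2, e3, hκ, pif]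
    · rw [h1] at e1
      rw [h3] at e3
      have hψ := TF3.c2 hj (TF3.x B) (hTF _ _ _ _ (TF3.x B) jxyz jxy jxyz)
      cases hκ : Φ false false false false
      · refine (TF3.c3 hψ (TF3.x B) hψ (TF3.z B)).congr fun x y z => ?_
        cases x <;> cases y <;> cases z <;> simp [e1, e3, hκ, pif]
      · have hn := TF2.c3 hψ (TF2.x B) (TF2.y B) (TF2.y B)
        refine (TF3.c2 hn (TF3.x B) (TF3.c2 hj (TF3.c2 hn (TF3.x B) (TF3.y B))
          (TF3.c2 hn (TF3.x B) (TF3.z B)))).congr fun x y z => ?_
        cases x <;> cases y <;> cases z <;> simp [e1, e3, hκ, pif]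
  cases h1 : B n f v
  · cases h2 : B n f w
    · rw [h1, h2] at hne
      refine key v w (Or.inl ⟨h1, h2, ?_⟩)
      revert hne
      cases B n f (fun i => v i || w i) <;> decide
    · rw [h1, h2] at hne
      refine key w v (Or.inr ⟨h2, ?_⟩)
      have : (fun i => w i || v i) = fun i => v i || w i := by
        funext i
        exact Bool.or_comm _ _
      rw [this]
      revert hne
      cases B n f (fun i => v i || w i) <;> decide
  · rw [h1] at hne
    refine key v w (Or.inr ⟨h1, ?_⟩)
    revert hne
    cases B n f (fun i => v i || w i) <;> cases B n f w <;> decide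

theorem good_join [Finite (BStr L)] {N : ℕ} (hN : ∀ n (_ : L.Functions n), n ≤ N) {B : BStr L}
    (hj : TF2 B (fun x y => x || y)) : Good B := by
  rcases join_case hj with hs | ⟨p, hp⟩
  · obtain ⟨j, hj⟩ := hj
    exact good_semi hN hj hs
  · exact good_pi hp

/-- every two-element algebra of a finite signature has the local to global property -/
theorem good_all [Finite (BStr L)] {N : ℕ} (hN : ∀ n (_ : L.Functions n), n ≤ N) (B : BStr L) :
    Good B := by
  by_cases haff : ∀ n (f : L.Functions n), AffOp (B n f)
  · rcases aff_case haff with h | ⟨m, hm⟩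
    · exact good_un hN h
    · exact good_aff hm haff
  · push Not at haff
    obtain ⟨n, f, hf⟩ := haff
    have h1 := nonaff_case f hf
    by_cases h2 : ∃ g, TF2 B g ∧ Odd2 g
    · obtain ⟨g, hg, ho⟩ := h2
      rcases odd_and_or hg ho with h3 | h3
      · refine good_dual (good_join hN ?_)
        obtain ⟨t, ht⟩ := h3
        refine ⟨t, fun x y => ?_⟩
        rw [ev_dual]
        have : (fun a => !((![x, y] : Fin 2 → Bool) a)) = ![!x, !y] := by
          funext a
          fin_cases a <;> rfl
        rw [this, ht]
        cases x <;> cases y <;> rfl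
      · exact good_join hN h3
    · obtain ⟨m, hm⟩ := h1.resolve_left h2
      exact good_maj hm (selfdual_of ⟨m, hm⟩ h2)

end Pool.Agent.H34.Park
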