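import Pool.Agent.H34.Park.Quot

/-!
# Finite basis for varieties of residual bound two
-/

set_option autoImplicit false

open FirstOrder FirstOrder.Language FirstOrder.Language.Structure

namespace Pool.Agent.H34.Park

variable {L : FirstOrder.Language.{0, 0}}

/-- the bounded witness property -/
def Star (L : FirstOrder.Language.{0, 0}) (M : ℕ) : Prop :=
  ∀ (A : Type) [L.Structure A], Sep2 L A → ∀ a b c d : A,
    (∀ (B : BStr L) (h : A → Bool), IsHom B h → h a = h b → h c = h d) →
    ∃ G : Finset A, G.card ≤ M ∧ a ∈ G ∧ b ∈ G ∧ c ∈ G ∧ d ∈ G ∧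
      ∀ (B : BStr L) (h : A → Bool), HomOn B (Cl G) h → h a = h b → h c = h d

section

variable {S : Type} [L.Structure S]

/-- the relation given by small subalgebras -/
def Th (L : FirstOrder.Language.{0, 0}) (M : ℕ) {S : Type} [L.Structure S] (a b x y : S) : Prop :=
  ∃ G : Finset S, G.card ≤ M ∧ a ∈ G ∧ b ∈ G ∧ x ∈ G ∧ y ∈ G ∧
    ∀ (B : BStr L) (h : S → Bool), HomOn B (Cl G) h → h a = h b → h x = h y

theorem th_of {M n : ℕ} (hM : Star L M)
    (hSep : ∀ H : Finset S, H.card ≤ n → Sep2 L (Cl H : L.Substructure S)) {H : Finset S}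
    (hH : H.card ≤ n) {a b x y : S} (ha : a ∈ H) (hb : b ∈ H)
    (hx : x ∈ (Cl H : L.Substructure S)) (hy : y ∈ (Cl H : L.Substructure S))
    (h : ∀ (B : BStr L) (h : S → Bool), HomOn B (Cl H) h → h a = h b → h x = h y) :
    Th L M a b x y :=
  star_sub hM (hSep H hH) (mem_Cl ha) (mem_Cl hb) hx hy h

theorem th_cong {M n N : ℕ} (hN : ∀ k (_ : L.Functions k), k ≤ N) (hM : Star L M)
    (hSep : ∀ H : Finset S, H.card ≤ n → Sep2 L (Cl H : L.Substructure S))
    (h1 : 3 ≤ n) (h2 : 2 * M ≤ n) (h3 : 2 + N * M ≤ n) (a b : S) :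
    Cong (L := L) S (Th L M a b) := by
  classical
  refine ⟨⟨fun x => ?_, fun {x y} h => ?_, fun {x y z} h h' => ?_⟩, fun k f x y hxy => ?_⟩
  · refine th_of hM hSep (H := {a, b, x}) (Finset.card_le_three.trans h1) (by simp) (by simp)
      (mem_Cl (by simp)) (mem_Cl (by simp)) fun _ _ _ _ => rfl
  · obtain ⟨G, hG, ga, gb, gx, gy, hw⟩ := h
    exact ⟨G, hG, ga, gb, gy, gx, fun B h hh hab => (hw B h hh hab).symm⟩
  · obtain ⟨G, hG, ga, gb, gx, gy, hw⟩ := h
    obtain ⟨G', hG', ga', gb', gy', gz', hw'⟩ := h'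
    refine th_of hM hSep (H := G ∪ G') ?_ (Finset.mem_union_left _ ga)
      (Finset.mem_union_left _ gb) (mem_Cl (Finset.mem_union_left _ gx))
      (mem_Cl (Finset.mem_union_right _ gz')) fun B h hh hab => ?_
    · have := Finset.card_union_le G G'
      omega
    · rw [hw B h (hh.mono (Cl_mono Finset.subset_union_left)) hab,
        hw' B h (hh.mono (Cl_mono Finset.subset_union_right)) hab]
  · choose G hG ga gb gx gy hw using hxy
    have hsub : ∀ i, G i ⊆ {a, b} ∪ Finset.univ.biUnion G := fun i =>
      (Finset.subset_biUnion_of_mem G (Finset.mem_univ i)).trans Finset.subset_union_right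
    refine th_of hM hSep (H := {a, b} ∪ Finset.univ.biUnion G) ?_ (by simp) (by simp)
      (Substructure.fun_mem _ f x fun i => mem_Cl (hsub i (gx i)))
      (Substructure.fun_mem _ f y fun i => mem_Cl (hsub i (gy i))) fun B h hh hab => ?_
    · have e1 := Finset.card_union_le {a, b} (Finset.univ.biUnion G)
      have e2 : (Finset.univ.biUnion G).card ≤ k * M := by
        refine Finset.card_biUnion_le.trans ?_
        refine (Finset.sum_le_sum fun i _ => hG i).trans ?_
        rw [Finset.sum_const, Finset.card_univ, Fintype.card_fin, smul_eq_mul]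
      have e3 : ({a, b} : Finset S).card ≤ 2 := Finset.card_le_two
      have e4 : k * M ≤ N * M := Nat.mul_le_mul_right _ (hN k f)
      omega
    · rw [hh k f x fun i => mem_Cl (hsub i (gx i)), hh k f y fun i => mem_Cl (hsub i (gy i))]
      congr 1
      funext i
      exact hw i B h (hh.mono (Cl_mono (hsub i))) hab

/-- in a subdirectly irreducible algebra, among three elements two are equal -/
theorem si_small {M n N : ℕ} (hN : ∀ k (_ : L.Functions k), k ≤ N) (hM : Star L M)
    (hSep : ∀ H : Finset S, H.card ≤ n → Sep2 L (Cl H : L.Substructure S))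
    (h1 : 3 ≤ n) (h2 : 3 * M ≤ n) (h3 : 2 + N * M ≤ n) {c d : S} (hSI : SIw L S c d)
    {a b e : S} (hab : a ≠ b) (hbe : b ≠ e) (hae : a ≠ e) : False := by
  classical
  have key : ∀ {a b : S}, a ≠ b → Th L M a b c d := by
    intro a b hab
    refine hSI.2 _ (th_cong hN hM hSep h1 (by omega) h3 a b) ⟨a, b, hab, ?_⟩
    exact th_of hM hSep (H := {a, b}) (Finset.card_le_two.trans (by omega)) (by simp) (by simp)
      (mem_Cl (by simp)) (mem_Cl (by simp)) fun _ _ _ h => h
  obtain ⟨G1, g1, _, _, c1, d1, w1⟩ := key hab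
  obtain ⟨G2, g2, _, _, _, _, w2⟩ := key hbe
  obtain ⟨G3, g3, _, _, _, _, w3⟩ := key hae
  have hcard : (G1 ∪ (G2 ∪ G3)).card ≤ n := by
    have e1 := Finset.card_union_le G1 (G2 ∪ G3)
    have e2 := Finset.card_union_le G2 G3
    omega
  have s1 : G1 ⊆ G1 ∪ (G2 ∪ G3) := Finset.subset_union_left
  have s2 : G2 ⊆ G1 ∪ (G2 ∪ G3) := Finset.subset_union_left.trans Finset.subset_union_right
  have s3 : G3 ⊆ G1 ∪ (G2 ∪ G3) := Finset.subset_union_right.trans Finset.subset_union_right
  obtain ⟨B, h, hh, hne⟩ := sep_sub (hSep _ hcard) (mem_Cl (s1 c1)) (mem_Cl (s1 d1)) hSI.1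
  have u1 := w1 B h (hh.mono (Cl_mono s1))
  have u2 := w2 B h (hh.mono (Cl_mono s2))
  have u3 := w3 B h (hh.mono (Cl_mono s3))
  revert u1 u2 u3 hne
  cases h a <;> cases h b <;> cases h e <;> cases h c <;> cases h d <;> simp

end

/-- identities in boundedly many variables suffice -/
theorem main1 (hL : ∀ n, IsEmpty (L.Relations n)) {M n N : ℕ}
    (hN : ∀ k (_ : L.Functions k), k ≤ N) (hM : Star L M) (h1 : 3 ≤ n) (h2 : 3 * M ≤ n)
    (h3 : 2 + N * M ≤ n) {A : Type} [L.Structure A]
    (hA : ∀ (B : Type) [L.Structure B], InV L A B → (∃ a b : B, SIw L B a b) →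
      Finite B ∧ Nat.card B ≤ 2)
    {S : Type} [L.Structure S] (hS : EqN L n A S) : InV L A S := by
  classical
  intro s t hst w
  by_contra hne
  obtain ⟨θ, hθ, hθne, hmax⟩ := exists_max_cong (L := L) hne
  let _ := hθ.str hL
  have hQ : EqN L n A (Quotient hθ.setoid) := hθ.eqN hL hS
  have hSep : ∀ H : Finset (Quotient hθ.setoid), H.card ≤ n →
      Sep2 L (Cl H : L.Substructure (Quotient hθ.setoid)) := fun H hH =>
    sep2_of_inV hL hA (inV_sub hQ hH)
  have hSI := hθ.siw hL hθne hmax
  have htwo : ∀ z : Quotient hθ.setoid, z = Quotient.mk hθ.setoid (s.realize w) ∨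
      z = Quotient.mk hθ.setoid (t.realize w) := by
    intro z
    by_contra hz
    rw [not_or] at hz
    exact si_small hN hM hSep h1 h2 h3 hSI hz.1 hSI.1 hz.2
  obtain ⟨g, g0, g1⟩ : ∃ g : Fin n → Quotient hθ.setoid,
      g ⟨0, by omega⟩ = Quotient.mk hθ.setoid (s.realize w) ∧
      g ⟨1, by omega⟩ = Quotient.mk hθ.setoid (t.realize w) := by
    refine ⟨fun i => if i.val = 0 then Quotient.mk hθ.setoid (s.realize w) else
      Quotient.mk hθ.setoid (t.realize w), ?_, ?_⟩
    · exact if_pos rfl
    · exact if_neg Nat.one_ne_zero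
  have hρ : ∀ i : ℕ, ∃ k : Fin n, g k = Quotient.mk hθ.setoid (w i) := by
    intro i
    rcases htwo (Quotient.mk hθ.setoid (w i)) with h | h
    · exact ⟨_, g0.trans h.symm⟩
    · exact ⟨_, g1.trans h.symm⟩
  choose ρ hρ using hρ
  have e1 := hQ (s.subst fun i => Term.var (ρ i)) (t.subst fun i => Term.var (ρ i)) (fun v => by
    rw [Term.realize_subst, Term.realize_subst, hst]) g
  rw [Term.realize_subst, Term.realize_subst] at e1
  have e2 : (fun i : ℕ => (Term.var (ρ i) : L.Term (Fin n)).realize g) =
      fun i => Quotient.mk hθ.setoid (w i) := funext hρ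
  rw [e2] at e1
  have e3 := hθ.realize_mk hL s w
  have e4 := hθ.realize_mk hL t w
  exact hθne (Quotient.exact (e3.symm.trans (e1.trans e4)))

/-- finitely many identities imply the identities in `n` variables -/
theorem main2 (hfin : Finite (Σ n, L.Functions n)) (n : ℕ)
    {A : Type} [L.Structure A] (hA : Sep2 L A) :
    ∃ E : Finset (L.Term ℕ × L.Term ℕ), (∀ e ∈ E, ∀ v : ℕ → A, e.1.realize v = e.2.realize v) ∧
      ∀ (S : Type) [L.Structure S], (∀ e ∈ E, ∀ w : ℕ → S, e.1.realize w = e.2.realize w) →
        EqN L n A S := by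
  classical
  have hB : Finite (BStr L) := finite_BStr hfin
  let R : Setoid (L.Term (Fin n)) :=
    { r := fun s t => ∀ v : Fin n → A, s.realize v = t.realize v
      iseqv := ⟨fun _ _ => rfl, fun h v => (h v).symm, fun h h' v => (h v).trans (h' v)⟩ }
  -- finitely many classes
  have hQ : Finite (Quotient R) := by
    let F : Quotient R → (BStr L → (Fin n → Bool) → Bool) := fun q C v => ev C q.out v
    refine Finite.of_injective F fun q q' h => ?_
    rw [← Quotient.out_eq q, ← Quotient.out_eq q']
    refine Quotient.sound fun v => hA.eq fun C g hg => ?_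
    rw [hg.realize, hg.realize]
    exact congrFun (congrFun h C) _
  let rep : L.Term (Fin n) → L.Term (Fin n) := fun t => (Quotient.mk R t).out
  have hrep : ∀ t (v : Fin n → A), (rep t).realize v = t.realize v := fun t =>
    Quotient.exact (Quotient.out_eq (Quotient.mk R t))
  have hrep' : ∀ s t : L.Term (Fin n), (∀ v : Fin n → A, s.realize v = t.realize v) →
      rep s = rep t := fun s t h => congrArg Quotient.out (Quotient.sound h)
  let up : L.Term (Fin n) → L.Term ℕ := fun t => t.relabel Fin.val
  let e1 : Fin n → L.Term ℕ × L.Term ℕ := fun i => (up (Term.var i), up (rep (Term.var i)))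
  let e2 : (Σ p : (Σ k, L.Functions k), Fin p.1 → Quotient R) → L.Term ℕ × L.Term ℕ :=
    fun q => (up (Term.func q.1.2 fun i => (q.2 i).out),
      up (rep (Term.func q.1.2 fun i => (q.2 i).out)))
  have f1 : (Set.range e1).Finite := Set.finite_range e1
  have f2 : (Set.range e2).Finite := Set.finite_range e2
  refine ⟨f1.toFinset ∪ f2.toFinset, fun e he v => ?_, fun S _ hS => ?_⟩
  · rw [Finset.mem_union, Set.Finite.mem_toFinset, Set.Finite.mem_toFinset] at he
    rcases he with ⟨i, rfl⟩ | ⟨q, rfl⟩
    · show (up _).realize v = (up _).realize v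
      rw [Term.realize_relabel, Term.realize_relabel, hrep]
    · show (up _).realize v = (up _).realize v
      rw [Term.realize_relabel, Term.realize_relabel, hrep]
  · have hv : ∀ (i : Fin n) (w : ℕ → S), (up (Term.var i)).realize w =
        (up (rep (Term.var i))).realize w := fun i w =>
      hS (e1 i) (Finset.mem_union_left _ ((Set.Finite.mem_toFinset _).2 ⟨i, rfl⟩)) w
    have hf : ∀ (k : ℕ) (f : L.Functions k) (q : Fin k → Quotient R) (w : ℕ → S),
        (up (Term.func f fun i => (q i).out)).realize w =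
        (up (rep (Term.func f fun i => (q i).out))).realize w := fun k f q w =>
      hS (e2 ⟨⟨k, f⟩, q⟩) (Finset.mem_union_right _ ((Set.Finite.mem_toFinset _).2 ⟨_, rfl⟩)) w
    have key : ∀ (t : L.Term (Fin n)) (w : ℕ → S),
        (up t).realize w = (up (rep t)).realize w := by
      intro t
      induction t with
      | var i => exact hv i
      | func f ts ih =>
        intro w
        have h1 : (up (Term.func f ts)).realize w =
            (up (Term.func f fun i => (Quotient.mk R (ts i)).out)).realize w := by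
          show Term.realize w (Term.relabel _ (Term.func f ts)) =
            Term.realize w (Term.relabel _ (Term.func f fun i => (Quotient.mk R (ts i)).out))
          simp only [Term.relabel, Term.realize_func]
          congr 1
          funext i
          exact ih i w
        have h2 : rep (Term.func f fun i => (Quotient.mk R (ts i)).out) = rep (Term.func f ts) := by
          refine hrep' _ _ fun v => ?_
          rw [Term.realize_func, Term.realize_func]
          congr 1
          funext i
          exact hrep (ts i) v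
        rw [h1, hf, h2]
    intro s t hst w
    -- extend the assignment
    by_cases hn : Nonempty S
    · obtain ⟨z⟩ := hn
      obtain ⟨w', hw'⟩ : ∃ w' : ℕ → S, ∀ i : Fin n, w' i.val = w i := by
        refine ⟨fun i => if h : i < n then w ⟨i, h⟩ else z, fun i => ?_⟩
        beta_reduce
        rw [dif_pos i.2]
      have hup : ∀ t : L.Term (Fin n), (up t).realize w' = t.realize w := by
        intro t
        show (t.relabel Fin.val).realize w' = _
        rw [Term.realize_relabel]
        congr 1
        funext i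
        exact hw' i
      rw [← hup, ← hup, key s, key t, hrep' s t hst]
    · exact absurd ⟨s.realize w⟩ hn

/-- finite basis -/
theorem main (hL : ∀ n, IsEmpty (L.Relations n)) (hfin : Finite (Σ n, L.Functions n))
    {A : Type} [L.Structure A]
    (hA : ∀ (B : Type) [L.Structure B], InV L A B → (∃ a b : B, SIw L B a b) →
      Finite B ∧ Nat.card B ≤ 2) :
    ∃ E : Finset (L.Term ℕ × L.Term ℕ), (∀ e ∈ E, ∀ v : ℕ → A, e.1.realize v = e.2.realize v) ∧
      ∀ (S : Type) [L.Structure S], (∀ e ∈ E, ∀ w : ℕ → S, e.1.realize w = e.2.realize w) →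
        InV L A S := by
  have : Finite (BStr L) := finite_BStr hfin
  obtain ⟨N, hN⟩ : ∃ N, ∀ k (_ : L.Functions k), k ≤ N := by
    have : Fintype (Σ n, L.Functions n) := Fintype.ofFinite _
    refine ⟨∑ p : (Σ n, L.Functions n), p.1, fun k f => ?_⟩
    exact Finset.single_le_sum (f := fun p : (Σ n, L.Functions n) => p.1)
      (fun _ _ => Nat.zero_le _) (Finset.mem_univ (⟨k, f⟩ : Σ n, L.Functions n))
  obtain ⟨M, hM⟩ := star hN
  have hAs : Sep2 L A := sep2_of_inV hL hA fun s t h => h
  obtain ⟨E, hE1, hE2⟩ := main2 hfin (3 + (N + 3) * M) hAs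
  refine ⟨E, hE1, fun S _ hS => ?_⟩
  have e1 : (N + 3) * M = N * M + 3 * M := by ring
  exact main1 hL hN hM (by omega) (by omega) (by omega) hA (hE2 S hS)

end Pool.Agent.H34.Park
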