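import Pool.Agent.H34.Park.Sep

/-!
# The local to global property, and the self-dual majority case
-/

set_option autoImplicit false

open FirstOrder FirstOrder.Language FirstOrder.Language.Structure

namespace Pool.Agent.H34.Park

variable {L : FirstOrder.Language.{0, 0}}

/-- the subalgebra generated by a finite set -/
def Cl {A : Type} [L.Structure A] (G : Finset A) : L.Substructure A :=
  Substructure.closure L (G : Set A)

theorem mem_Cl {A : Type} [L.Structure A] {G : Finset A} {x : A} (h : x ∈ G) :
    x ∈ (Cl G : L.Substructure A) :=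
  Substructure.subset_closure (L := L) (by exact_mod_cast h)

/-- local to global for homomorphisms to `B` -/
def Good (B : BStr L) : Prop :=
  ∃ m : ℕ, ∀ (A : Type) [L.Structure A], Sep2 L A → ∀ (c a1 a2 a3 : A),
    (∀ h : A → Bool, IsHom B h → h a1 = h a2 → h a1 = h a3 → h c = h a1) →
    ∃ G : Finset A, G.card ≤ m ∧ c ∈ G ∧ a1 ∈ G ∧ a2 ∈ G ∧ a3 ∈ G ∧
      ∀ h : A → Bool, HomOn B (Cl G) h → h a1 = h a2 → h a1 = h a3 → h c = h a1

theorem Sep2.eq {A : Type} [L.Structure A] (hA : Sep2 L A) {x y : A}
    (h : ∀ (C : BStr L) (g : A → Bool), IsHom C g → g x = g y) : x = y := by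
  by_contra hxy
  obtain ⟨C, g, hg, hne⟩ := hA x y hxy
  exact hne (h C g hg)

/-- the equation holds as soon as the surviving homomorphisms agree -/
theorem Ok.eq_of {A : Type} [L.Structure A] (hA : Sep2 L A) {B : BStr L}
    {α β : Bool → Bool → Bool} {P : BStr L → Prop} {l r : L.Term (Fin 2)}
    (h : Ok B α β {C | ¬ P C} l r) {x y : A}
    (hxy : ∀ (C : BStr L) (g : A → Bool), IsHom C g → P C →
      ev C l ![g x, g y] = ev C r ![g x, g y]) : o2 l x y = o2 r x y := by
  refine hA.eq fun C g hg => ?_
  rw [hg.o2, hg.o2]
  by_cases hP : P C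
  · exact hxy C g hg hP
  · exact h.2.2.2 C hP _ _

theorem Ok.eq_of_eq {A : Type} [L.Structure A] (hA : Sep2 L A) {B : BStr L}
    {α β : Bool → Bool → Bool} {P : BStr L → Prop} {l r : L.Term (Fin 2)}
    (h : Ok B α β {C | ¬ P C} l r) {x y : A}
    (hxy : ∀ (C : BStr L) (g : A → Bool), IsHom C g → P C → g x = g y) :
    o2 l x y = o2 r x y := by
  refine h.eq_of hA fun C g hg hP => ?_
  rw [hxy C g hg hP]
  exact h.2.2.1 C _

theorem Ok.hom {A : Type} [L.Structure A] {B : BStr L}
    {α β : Bool → Bool → Bool} {H : Set (BStr L)} {l r : L.Term (Fin 2)}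
    (h : Ok B α β H l r) {x y : A} (hxy : o2 l x y = o2 r x y) {T : L.Substructure A}
    {g : A → Bool} (hg : HomOn B T g) (hx : x ∈ T) (hy : y ∈ T) :
    α (g x) (g y) = β (g x) (g y) := by
  have := congrArg g hxy
  rw [hg.o2 _ hx hy, hg.o2 _ hx hy, h.1, h.2.1] at this
  exact this

theorem vec2 (v : Fin 2 → Bool) : v = ![v 0, v 1] := by
  funext i
  fin_cases i <;> rfl

theorem PT.fst {B C : BStr L} (h : PT B C) {t : L.Term (Fin 2)}
    (ht : ∀ x y, ev B t ![x, y] = x) :
    (∀ x y, ev C t ![x, y] = x) ∨ (∀ x y, ev C t ![x, y] = !x) := by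
  rcases h 2 t 0 (fun v => by rw [vec2 v, ht]; rfl) with h1 | h1
  · exact Or.inl fun x y => h1 ![x, y]
  · exact Or.inr fun x y => h1 ![x, y]

theorem PT.snd {B C : BStr L} (h : PT B C) {t : L.Term (Fin 2)}
    (ht : ∀ x y, ev B t ![x, y] = y) :
    (∀ x y, ev C t ![x, y] = y) ∨ (∀ x y, ev C t ![x, y] = !y) := by
  rcases h 2 t 1 (fun v => by rw [vec2 v, ht]; rfl) with h1 | h1
  · exact Or.inl fun x y => h1 ![x, y]
  · exact Or.inr fun x y => h1 ![x, y]

/-- the majority operation -/
def maj (x y z : Bool) : Bool := (x && y) || (x && z) || (y && z)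

theorem maj_shape {B C : BStr L} (h : PT B C) {m : L.Term (Fin 3)}
    (hm : ∀ x y z, ev B m ![x, y, z] = maj x y z) :
    (∀ x y z, ev C m ![x, y, z] = maj x y z) ∨ (∀ x y z, ev C m ![x, y, z] = !(maj x y z)) := by
  have h1 := h.fst (t := b3 m X X Y) (fun x y => by
    simp only [ev_b3, ev_X, ev_Y, hm]
    cases x <;> cases y <;> rfl)
  have h2 := h.fst (t := b3 m X Y X) (fun x y => by
    simp only [ev_b3, ev_X, ev_Y, hm]
    cases x <;> cases y <;> rfl)
  have h3 := h.fst (t := b3 m Y X X) (fun x y => by
    simp only [ev_b3, ev_X, ev_Y, hm]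
    cases x <;> cases y <;> rfl)
  simp only [ev_b3, ev_X, ev_Y] at h1 h2 h3
  rcases h1 with h1 | h1
  · left
    have h2' : ∀ x y, ev C m ![x, y, x] = x := by
      rcases h2 with h2 | h2
      · exact h2
      · have a1 := h1 true true
        have a2 := h2 true true
        rw [a1] at a2
        exact absurd a2 (by decide)
    have h3' : ∀ x y, ev C m ![y, x, x] = x := by
      rcases h3 with h3 | h3
      · exact h3
      · have a1 := h1 true true
        have a2 := h3 true true
        rw [a1] at a2
        exact absurd a2 (by decide)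
    intro x y z
    cases x <;> cases y <;> cases z <;> first
      | exact h1 _ _
      | exact h2' _ _
      | exact h3' _ _
  · right
    have h2' : ∀ x y, ev C m ![x, y, x] = !x := by
      rcases h2 with h2 | h2
      · have a1 := h1 true true
        have a2 := h2 true true
        rw [a1] at a2
        exact absurd a2 (by decide)
      · exact h2
    have h3' : ∀ x y, ev C m ![y, x, x] = !x := by
      rcases h3 with h3 | h3
      · have a1 := h1 true true
        have a2 := h3 true true
        rw [a1] at a2
        exact absurd a2 (by decide)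
      · exact h3
    intro x y z
    cases x <;> cases y <;> cases z <;> first
      | exact h1 _ _
      | exact h2' _ _
      | exact h3' _ _

/-- in the self-dual majority case the only survivor is `B` -/
theorem maj_unique {B C : BStr L} (h : PT B C) {m : L.Term (Fin 3)}
    (hm : ∀ x y z, ev B m ![x, y, z] = maj x y z)
    (hd : ∀ n (f : L.Functions n) v, B n f (fun i => !(v i)) = !(B n f v)) : C = B := by
  -- normalise the majority term
  obtain ⟨m', hmB, hmC⟩ : ∃ m' : L.Term (Fin 3), (∀ x y z, ev B m' ![x, y, z] = maj x y z) ∧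
      ∀ x y z, ev C m' ![x, y, z] = maj x y z := by
    rcases maj_shape h hm with h1 | h1
    · exact ⟨m, hm, h1⟩
    · refine ⟨b3 m m m m, fun x y z => ?_, fun x y z => ?_⟩
      · rw [ev_b3, hm, hm]
        cases x <;> cases y <;> cases z <;> rfl
      · rw [ev_b3, h1, h1]
        cases x <;> cases y <;> cases z <;> rfl
  -- projections are projections
  have ha : ∀ t : L.Term (Fin 2), (∀ x y, ev B t ![x, y] = x) → ∀ x y, ev C t ![x, y] = x := by
    intro t ht
    rcases h.fst ht with h1 | h1
    · exact h1
    · exfalso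
      have h2 := h.fst (t := b3 m' X t Y) (fun x y => by
        simp only [ev_b3, ev_X, ev_Y, hmB, ht]
        cases x <;> cases y <;> rfl)
      simp only [ev_b3, ev_X, ev_Y, hmC, h1] at h2
      rcases h2 with h2 | h2
      · have := h2 false true
        exact absurd this (by decide)
      · have := h2 false false
        exact absurd this (by decide)
  have ha' : ∀ t : L.Term (Fin 2), (∀ x y, ev B t ![x, y] = y) → ∀ x y, ev C t ![x, y] = y := by
    intro t ht x y
    have := ha (b2 t Y X) (fun x y => by rw [ev_b2, ev_X, ev_Y, ht]) y x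
    rwa [ev_b2, ev_X, ev_Y] at this
  -- negations are negations
  have hb : ∀ t : L.Term (Fin 2), (∀ x y, ev B t ![x, y] = !x) → ∀ x y, ev C t ![x, y] = !x := by
    intro t ht
    have h1 : ∀ x y, ev C t ![ev C t ![x, y], ev C t ![x, y] ] = x := by
      intro x y
      have := ha (b2 t t t) (fun x y => by rw [ev_b2, ht, ht, Bool.not_not]) x y
      rwa [ev_b2] at this
    obtain ⟨w, hw⟩ : ∃ w : Bool → Bool, ∀ x, w x = ev C t ![x, x] := ⟨_, fun _ => rfl⟩
    have hwne : w false ≠ w true := by
      intro hww
      have e1 := h1 false false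
      have e2 := h1 true true
      rw [← hw, ← hw] at e1 e2
      rw [← hww] at e2
      rw [e1] at e2
      exact absurd e2 (by decide)
    rcases bool_fun w hwne with hid | hnot
    · exfalso
      have h2 := ha' (b3 m' X (b2 t X X) Y) (fun x y => by
        simp only [ev_b3, ev_b2, ev_X, ev_Y, hmB, ht]
        cases x <;> cases y <;> rfl)
      have h3 := h2 false true
      simp only [ev_b3, ev_b2, ev_X, ev_Y, hmC] at h3
      rw [← hw, hid] at h3
      exact absurd h3 (by decide)
    · intro x y
      have e1 := h1 x y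
      rw [← hw, hnot] at e1
      revert e1
      generalize ev C t ![x, y] = p
      cases p <;> cases x <;> decide
  funext n f e
  have hs : ∀ x y, ev B (mnr (basic f) e) ![!x, !y] = !(ev B (mnr (basic f) e) ![x, y]) := by
    intro x y
    rw [ev_mnr, ev_mnr, ev_basic, ev_basic, ← hd]
    congr 1
    funext k
    split_ifs <;> rfl
  have key : ∀ t : L.Term (Fin 2), (∀ x y, ev B t ![!x, !y] = !(ev B t ![x, y])) →
      ev C t ![false, true] = ev B t ![false, true] := by
    intro t ht
    cases hp : ev B t ![false, true] <;> cases hq : ev B t ![false, false]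
    · refine ha t (fun x y => ?_) false true
      have e1 := ht false true
      have e2 := ht false false
      rw [hp] at e1
      rw [hq] at e2
      cases x <;> cases y
      · exact hq
      · exact hp
      · exact e1
      · exact e2
    · have h1 := hb (b2 t Y X) (fun x y => by
        rw [ev_b2, ev_X, ev_Y]
        have e1 := ht false true
        have e2 := ht false false
        rw [hp] at e1
        rw [hq] at e2
        cases x <;> cases y
        · exact hq
        · exact e1
        · exact hp
        · exact e2) true false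
      rw [ev_b2, ev_X, ev_Y] at h1
      exact h1
    · refine ha' t (fun x y => ?_) false true
      have e1 := ht false true
      have e2 := ht false false
      rw [hp] at e1
      rw [hq] at e2
      cases x <;> cases y
      · exact hq
      · exact hp
      · exact e1
      · exact e2
    · refine hb t (fun x y => ?_) false true
      have e1 := ht false true
      have e2 := ht false false
      rw [hp] at e1
      rw [hq] at e2
      cases x <;> cases y
      · exact hq
      · exact hp
      · exact e1
      · exact e2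
  have := key _ hs
  rwa [ev_mnr_self, ev_mnr_self, ev_basic, ev_basic] at this

theorem card4 {A : Type} [DecidableEq A] (c a1 a2 a3 : A) :
    ({c, a1, a2, a3} : Finset A).card ≤ 4 := Finset.card_le_four

/-- the self-dual majority case -/
theorem good_maj [Finite (BStr L)] {B : BStr L} {m : L.Term (Fin 3)}
    (hm : ∀ x y z, ev B m ![x, y, z] = maj x y z)
    (hd : ∀ n (f : L.Functions n) v, B n f (fun i => !(v i)) = !(B n f v)) : Good B := by
  classical
  obtain ⟨l, r, hlr⟩ := exists_eqPair B
  refine ⟨4, fun A _ hA c a1 a2 a3 hno => ?_⟩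
  have heq : o2 l c (o3 m c a1 (o3 m c a2 a3)) = o2 r c (o3 m c a1 (o3 m c a2 a3)) := by
    refine hlr.eq_of_eq hA fun C g hg hP => ?_
    have hCB := maj_unique hP hm hd
    subst hCB
    have h1 := hno g hg
    rw [hg.o3, hg.o3, hm, hm]
    revert h1
    cases g c <;> cases g a1 <;> cases g a2 <;> cases g a3 <;> decide
  refine ⟨{c, a1, a2, a3}, card4 _ _ _ _, by simp, by simp, by simp, by simp,
    fun h hh h12 h13 => ?_⟩
  have mc : c ∈ (Cl ({c, a1, a2, a3} : Finset A) : L.Substructure A) := mem_Cl (by simp)
  have m1 : a1 ∈ (Cl ({c, a1, a2, a3} : Finset A) : L.Substructure A) := mem_Cl (by simp)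
  have m2 : a2 ∈ (Cl ({c, a1, a2, a3} : Finset A) : L.Substructure A) := mem_Cl (by simp)
  have m3 : a3 ∈ (Cl ({c, a1, a2, a3} : Finset A) : L.Substructure A) := mem_Cl (by simp)
  have h2 := hlr.hom heq hh mc (o3_mem m mc m1 (o3_mem m mc m2 m3))
  rw [hh.o3 m mc m1 (o3_mem m mc m2 m3), hh.o3 m mc m2 m3, hm, hm, ← h12, ← h13] at h2
  revert h2
  cases h c <;> cases h a1 <;> decide

end Pool.Agent.H34.Park
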