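import Pool.Agent.H34.Park.Good

/-!
# Algebras with a join term: shape of the survivors, and the case of `x ∨ (y ∧ z)`
-/

set_option autoImplicit false

open FirstOrder FirstOrder.Language FirstOrder.Language.Structure

namespace Pool.Agent.H34.Park

variable {L : FirstOrder.Language.{0, 0}}

theorem bool2 (u : Bool → Bool → Bool) (h0 : u false false ≠ u true true)
    (h1 : ¬ ∀ x y, u x y = u y y) (h2 : ¬ ∀ x y, u x y = u x x) :
    u false true = u true false := by
  by_contra h
  by_cases h3 : u false true = u true true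
  · have h4 : u true false = u false false := by
      revert h0 h h3
      generalize u false false = a
      generalize u false true = b
      generalize u true false = c
      generalize u true true = d
      revert a b c d
      decide
    refine h1 fun x y => ?_
    cases x <;> cases y
    · rfl
    · exact h3
    · exact h4
    · rfl
  · have h4 : u false true = u false false ∧ u true false = u true true := by
      revert h0 h h3
      generalize u false false = a
      generalize u false true = b
      generalize u true false = c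
      generalize u true true = d
      revert a b c d
      decide
    refine h2 fun x y => ?_
    cases x <;> cases y
    · rfl
    · exact h4.1
    · exact h4.2
    · rfl

/-- values of a join term in a survivor, first step -/
theorem PJ.sym {B C : BStr L} (h : PJ B C) {t : L.Term (Fin 2)}
    (ht : ∀ x y, ev B t ![x, y] = (x || y)) :
    ev C t ![false, true] = ev C t ![true, false] ∧ ev C t ![false, false] ≠ ev C t ![true, true] := by
  have h1 := h.1.fst (t := b2 t X X) (fun x y => by
    simp only [ev_b2, ev_X, ht, Bool.or_self])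
  simp only [ev_b2, ev_X] at h1
  have h2 := h.2 t ht
  rw [not_or] at h2
  have hd : ev C t ![false, false] ≠ ev C t ![true, true] := by
    rcases h1 with h1 | h1
    · rw [h1 false false, h1 true true]
      decide
    · rw [h1 false false, h1 true true]
      decide
  exact ⟨bool2 (fun x y => ev C t ![x, y]) hd h2.1 h2.2, hd⟩

/-- the shape of a survivor -/
theorem PJ.struct {B C : BStr L} (h : PJ B C) {j : L.Term (Fin 2)}
    (hj : ∀ x y, ev B j ![x, y] = (x || y)) : ∃ s : Bool,
    (∀ t : L.Term (Fin 2), (∀ x y, ev B t ![x, y] = x) → ∀ x y, ev C t ![x, y] = x) ∧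
    (∀ t : L.Term (Fin 2), (∀ x y, ev B t ![x, y] = (x || y)) →
      ∀ x y, ev C t ![x, y] = xor s (xor s x || xor s y)) := by
  have ha : ∀ t : L.Term (Fin 2), (∀ x y, ev B t ![x, y] = x) → ∀ x y, ev C t ![x, y] = x := by
    intro t ht
    rcases h.1.fst ht with h1 | h1
    · exact h1
    · exfalso
      have h2 := h.1.fst (t := b2 j X t) (fun x y => by
        rw [ev_b2, ev_X, ht, hj, Bool.or_self])
      simp only [ev_b2, ev_X, h1] at h2
      have h3 := (h.sym hj).1
      rcases h2 with h2 | h2
      · have e1 := h2 false false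
        have e2 := h2 true true
        rw [Bool.not_false] at e1
        rw [Bool.not_true] at e2
        rw [h3, e2] at e1
        exact absurd e1 (by decide)
      · have e1 := h2 false false
        have e2 := h2 true true
        rw [Bool.not_false] at e1
        rw [Bool.not_true] at e2
        rw [h3, e2] at e1
        exact absurd e1 (by decide)
  have hdiag : ∀ t : L.Term (Fin 2), (∀ x y, ev B t ![x, y] = (x || y)) →
      ∀ x, ev C t ![x, x] = x := by
    intro t ht x
    have := ha (b2 t X X) (fun x y => by rw [ev_b2, ev_X, ht, Bool.or_self]) x x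
    rwa [ev_b2, ev_X] at this
  obtain ⟨r, hr⟩ : ∃ r, ev C j ![false, true] = r := ⟨_, rfl⟩
  have hr' : ev C j ![true, false] = r := by rw [← (h.sym hj).1, hr]
  have hjd := hdiag j hj
  refine ⟨!r, ha, fun t ht => ?_⟩
  have hs := (h.sym ht).1
  have htd := hdiag t ht
  have hrt : ev C t ![false, true] = r := by
    by_contra hne
    refine h.2 (b2 t X j) (fun x y => ?_) (Or.inr fun x y => ?_)
    · rw [ev_b2, ev_X, hj, ht]
      cases x <;> cases y <;> rfl
    · rw [ev_b2, ev_b2, ev_X, ev_X]
      cases r
      · have e1 : ev C t ![false, true] = true := by simpa using hne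
        rw [e1] at hs
        cases x <;> cases y
        · rfl
        · rw [hr, hjd]
        · rw [hr', hjd, htd, ← hs]
        · rfl
      · have e1 : ev C t ![false, true] = false := by simpa using hne
        rw [e1] at hs
        cases x <;> cases y
        · rfl
        · rw [hr, hjd, htd, e1]
        · rw [hr', hjd]
        · rfl
  rw [hrt] at hs
  intro x y
  cases x <;> cases y
  · rw [htd]
    cases r <;> rfl
  · rw [hrt]
    cases r <;> rfl
  · rw [← hs]
    cases r <;> rfl
  · rw [htd]
    cases r <;> rfl

/-- a pair of elements is in the order relation iff the equation holds -/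
theorem le_eq {A : Type} [L.Structure A] (hA : Sep2 L A) {B : BStr L} {j : L.Term (Fin 2)}
    (hj : ∀ x y, ev B j ![x, y] = (x || y)) {l r : L.Term (Fin 2)}
    (hlr : Ok B (fun x y => x || y) (fun _ y => y) {C | ¬ PJ B C} l r) {x y : A}
    (h : ∀ (C : BStr L) (g : A → Bool) (s : Bool), IsHom C g → PJ B C →
      (∀ t : L.Term (Fin 2), (∀ x y, ev B t ![x, y] = x) → ∀ x y, ev C t ![x, y] = x) →
      (∀ t : L.Term (Fin 2), (∀ x y, ev B t ![x, y] = (x || y)) →
        ∀ x y, ev C t ![x, y] = xor s (xor s x || xor s y)) →
      (xor s (g x) || xor s (g y)) = xor s (g y)) : o2 l x y = o2 r x y := by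
  refine hlr.eq_of hA fun C g hg hP => ?_
  obtain ⟨s, ha, hb⟩ := hP.struct hj
  have h1 := h C g s hg hP ha hb
  rw [hb l hlr.1, h1]
  have h2 := ha (b2 r Y X) (fun x y => by rw [ev_b2, ev_X, ev_Y, hlr.2.1]) (g y) (g x)
  rw [ev_b2, ev_X, ev_Y] at h2
  rw [h2, ← Bool.xor_assoc, Bool.xor_self, Bool.false_xor]

/-- the value of the term `x ∨ (y ∧ z)` -/
def pif (x y z : Bool) : Bool := x || (y && z)

theorem pi_survivor {B C : BStr L} {p : L.Term (Fin 3)}
    (hp : ∀ x y z, ev B p ![x, y, z] = pif x y z) {s : Bool}
    (ha : ∀ t : L.Term (Fin 2), (∀ x y, ev B t ![x, y] = x) → ∀ x y, ev C t ![x, y] = x)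
    (hb : ∀ t : L.Term (Fin 2), (∀ x y, ev B t ![x, y] = (x || y)) →
        ∀ x y, ev C t ![x, y] = xor s (xor s x || xor s y)) :
    ∀ n (f : L.Functions n) v, C n f (fun i => xor s (v i)) = xor s (B n f v) := by
  -- the shape of `p` in `C`
  have hpC : ∀ x y z, ev C p ![x, y, z] = xor s (pif (xor s x) (xor s y) (xor s z)) := by
    have h1 := ha (b3 p X X Y) (fun x y => by
      simp only [ev_b3, ev_X, ev_Y, hp]
      cases x <;> cases y <;> rfl)
    have h2 := ha (b3 p X Y X) (fun x y => by
      simp only [ev_b3, ev_X, ev_Y, hp]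
      cases x <;> cases y <;> rfl)
    have h3 := hb (b3 p X Y Y) (fun x y => by
      simp only [ev_b3, ev_X, ev_Y, hp]
      cases x <;> cases y <;> rfl)
    simp only [ev_b3, ev_X, ev_Y] at h1 h2 h3
    intro x y z
    by_cases hxy : x = y
    · subst hxy
      rw [h1]
      cases s <;> cases x <;> cases z <;> rfl
    · by_cases hxz : x = z
      · subst hxz
        rw [h2]
        cases s <;> cases x <;> cases y <;> rfl
      · have hyz : y = z := by
          revert hxy hxz
          cases x <;> cases y <;> cases z <;> decide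
        subst hyz
        rw [h3]
        cases s <;> cases x <;> cases y <;> rfl
  intro n f e
  -- the term `x ∨ (y ∧ f(e))`
  have hmB : ∀ x y, ev B (b3 p X Y (mnr (basic f) e)) ![x, y] =
      pif x y (B n f (fun k => if e k then y else x)) := by
    intro x y
    rw [ev_b3, ev_X, ev_Y, hp, ev_mnr, ev_basic]
  have hmC : ev C (b3 p X Y (mnr (basic f) e)) ![xor s false, xor s true] =
      C n f (fun i => xor s (e i)) := by
    rw [ev_b3, ev_X, ev_Y, hpC, ev_mnr, ev_basic]
    have : (fun k => if e k then xor s true else xor s false) = (fun i => xor s (e i)) := by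
      funext k
      cases e k <;> rfl
    rw [this]
    generalize C n f (fun i => xor s (e i)) = q
    cases s <;> cases q <;> rfl
  have hfe : (fun k => if e k then true else false) = e := by
    funext k
    cases e k <;> rfl
  rw [← hmC]
  cases hv : B n f e
  · rw [ha (b3 p X Y (mnr (basic f) e)) (fun x y => ?_)]
    rw [hmB]
    cases x
    · cases y
      · rfl
      · rw [hfe, hv]
        rfl
    · rfl
  · rw [hb (b3 p X Y (mnr (basic f) e)) (fun x y => ?_)]
    · cases s <;> rfl
    · rw [hmB]
      cases x
      · cases y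
        · rfl
        · rw [hfe, hv]
          rfl
      · rfl

/-- the case of a term `x ∨ (y ∧ z)` -/
theorem good_pi [Finite (BStr L)] {B : BStr L} {p : L.Term (Fin 3)}
    (hp : ∀ x y z, ev B p ![x, y, z] = pif x y z) : Good B := by
  classical
  have hj : ∀ x y, ev B (b3 p X Y Y) ![x, y] = (x || y) := by
    intro x y
    rw [ev_b3, ev_X, ev_Y, hp]
    cases x <;> cases y <;> rfl
  generalize b3 p X Y Y = j at hj
  obtain ⟨l, r, hlr⟩ := exists_lePair hj
  refine ⟨4, fun A _ hA c a1 a2 a3 hno => ?_⟩
  -- survivors are homomorphisms to `B`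
  have hsurv : ∀ (C : BStr L) (g : A → Bool) (s : Bool), IsHom C g → PJ B C →
      (∀ t : L.Term (Fin 2), (∀ x y, ev B t ![x, y] = x) → ∀ x y, ev C t ![x, y] = x) →
      (∀ t : L.Term (Fin 2), (∀ x y, ev B t ![x, y] = (x || y)) →
        ∀ x y, ev C t ![x, y] = xor s (xor s x || xor s y)) →
      IsHom B (fun x => xor s (g x)) := by
    intro C g s hg _ ha hb n f x
    have h1 := pi_survivor hp ha hb n f (fun i => xor s (g (x i)))
    have h2 : (fun i => xor s (xor s (g (x i)))) = (fun i => g (x i)) := by
      funext i
      rw [← Bool.xor_assoc, Bool.xor_self, Bool.false_xor]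
    rw [h2, ← hg n f x] at h1
    show xor s (g (funMap f x)) = _
    rw [h1, ← Bool.xor_assoc, Bool.xor_self, Bool.false_xor]
  -- first orientation
  have e1 : o2 l c (o2 j (o2 j a1 a2) a3) = o2 r c (o2 j (o2 j a1 a2) a3) := by
    refine le_eq hA hj hlr fun C g s hg hP ha hb => ?_
    have hB := hsurv C g s hg hP ha hb
    have h1 := hno _ hB
    have h2 := hB.o2 j (o2 j a1 a2) a3
    have h3 := hB.o2 j a1 a2
    rw [hj] at h2 h3
    beta_reduce at h1 h2 h3
    rw [h2, h3]
    revert h1
    generalize xor s (g c) = p0
    generalize xor s (g a1) = p1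
    generalize xor s (g a2) = p2
    generalize xor s (g a3) = p3
    revert p0 p1 p2 p3
    decide
  -- second orientation
  have e2 : o2 l (o3 p c a1 (o3 p c a2 a3)) c = o2 r (o3 p c a1 (o3 p c a2 a3)) c := by
    refine le_eq hA hj hlr fun C g s hg hP ha hb => ?_
    have hB := hsurv C g s hg hP ha hb
    have h1 := hno _ hB
    have h2 := hB.o3 p c a1 (o3 p c a2 a3)
    have h3 := hB.o3 p c a2 a3
    rw [hp] at h2 h3
    beta_reduce at h1 h2 h3
    rw [h2, h3]
    revert h1
    generalize xor s (g c) = p0
    generalize xor s (g a1) = p1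
    generalize xor s (g a2) = p2
    generalize xor s (g a3) = p3
    unfold pif
    revert p0 p1 p2 p3
    decide
  refine ⟨{c, a1, a2, a3}, card4 _ _ _ _, by simp, by simp, by simp, by simp,
    fun h hh h12 h13 => ?_⟩
  have mc : c ∈ (Cl ({c, a1, a2, a3} : Finset A) : L.Substructure A) := mem_Cl (by simp)
  have m1 : a1 ∈ (Cl ({c, a1, a2, a3} : Finset A) : L.Substructure A) := mem_Cl (by simp)
  have m2 : a2 ∈ (Cl ({c, a1, a2, a3} : Finset A) : L.Substructure A) := mem_Cl (by simp)
  have m3 : a3 ∈ (Cl ({c, a1, a2, a3} : Finset A) : L.Substructure A) := mem_Cl (by simp)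
  have f1 := hlr.hom e1 hh mc (o2_mem j (o2_mem j m1 m2) m3)
  have f2 := hlr.hom e2 hh (o3_mem p mc m1 (o3_mem p mc m2 m3)) mc
  rw [hh.o2 j (o2_mem j m1 m2) m3, hh.o2 j m1 m2, hj, hj, ← h12, ← h13] at f1
  rw [hh.o3 p mc m1 (o3_mem p mc m2 m3), hh.o3 p mc m2 m3, hp, hp, ← h12, ← h13] at f2
  revert f1 f2
  cases h c <;> cases h a1 <;> decide

end Pool.Agent.H34.Park
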