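import Pool.Agent.H34.Park.Star

/-!
# Congruences, quotients and identities
-/

set_option autoImplicit false

open FirstOrder FirstOrder.Language FirstOrder.Language.Structure

namespace Pool.Agent.H34.Park

variable {L : FirstOrder.Language.{0, 0}}

/-- congruences -/
def Cong (B : Type) [L.Structure B] (θ : B → B → Prop) : Prop :=
  Equivalence θ ∧ ∀ (n : ℕ) (f : L.Functions n) (x y : Fin n → B), (∀ i, θ (x i) (y i)) →
    θ (funMap f x) (funMap f y)

/-- subdirectly irreducible, with the pair `a`, `b` as witness -/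
def SIw (L : FirstOrder.Language.{0, 0}) (B : Type) [L.Structure B] (a b : B) : Prop :=
  a ≠ b ∧ ∀ θ : B → B → Prop, Cong (L := L) B θ → (∃ c d : B, c ≠ d ∧ θ c d) → θ a b

/-- all identities of `A` hold in `B` -/
def InV (L : FirstOrder.Language.{0, 0}) (A B : Type) [L.Structure A] [L.Structure B] : Prop :=
  ∀ s t : L.Term ℕ, (∀ v : ℕ → A, s.realize v = t.realize v) →
    ∀ w : ℕ → B, s.realize w = t.realize w

/-- all identities in `n` variables of `A` hold in `B` -/
def EqN (L : FirstOrder.Language.{0, 0}) (n : ℕ) (A B : Type) [L.Structure A] [L.Structure B] :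
    Prop :=
  ∀ s t : L.Term (Fin n), (∀ v : Fin n → A, s.realize v = t.realize v) →
    ∀ w : Fin n → B, s.realize w = t.realize w

/-- a congruence maximal among those that separate two given points -/
theorem exists_max_cong {B : Type} [L.Structure B] {x y : B} (hxy : x ≠ y) :
    ∃ θ : B → B → Prop, Cong (L := L) B θ ∧ ¬ θ x y ∧ ∀ θ' : B → B → Prop, Cong (L := L) B θ' →
      (∀ u v, θ u v → θ' u v) → (∃ c d, θ' c d ∧ ¬ θ c d) → θ' x y := by
  obtain ⟨m, hm⟩ := zorn_subset {R : Set (B × B) | Cong (L := L) B (fun u v => (u, v) ∈ R) ∧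
    (x, y) ∉ R} (by
    intro c hc hchain
    rcases c.eq_empty_or_nonempty with rfl | hne
    · refine ⟨{p | p.1 = p.2}, ⟨⟨⟨fun _ => rfl, fun h => h.symm, fun h h' => h.trans h'⟩,
        fun n f u v huv => ?_⟩, hxy⟩, fun s hs => absurd hs (Set.notMem_empty _)⟩
      exact congrArg (funMap f) (funext huv)
    · obtain ⟨R0, hR0⟩ := hne
      refine ⟨⋃₀ c, ⟨⟨⟨fun u => ?_, fun {u v} h => ?_, fun {u v w} h h' => ?_⟩,
        fun n f u v huv => ?_⟩, ?_⟩, fun s hs => Set.subset_sUnion_of_mem hs⟩
      · exact Set.mem_sUnion.2 ⟨R0, hR0, (hc hR0).1.1.refl u⟩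
      · obtain ⟨R, hR, hu⟩ := Set.mem_sUnion.1 h
        exact Set.mem_sUnion.2 ⟨R, hR, (hc hR).1.1.symm hu⟩
      · obtain ⟨R, hR, hu⟩ := Set.mem_sUnion.1 h
        obtain ⟨R', hR', hu'⟩ := Set.mem_sUnion.1 h'
        rcases hchain.total hR hR' with hle | hle
        · exact Set.mem_sUnion.2 ⟨R', hR', (hc hR').1.1.trans (hle hu) hu'⟩
        · exact Set.mem_sUnion.2 ⟨R, hR, (hc hR).1.1.trans hu (hle hu')⟩
      · choose R hR hu using fun i => Set.mem_sUnion.1 (huv i)
        have : Nonempty c := ⟨⟨R0, hR0⟩⟩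
        have hdir : Directed (· ⊆ ·) (fun a : c => (a : Set (B × B))) := by
          intro a b
          rcases hchain.total a.2 b.2 with hle | hle
          · exact ⟨b, hle, subset_rfl⟩
          · exact ⟨a, subset_rfl, hle⟩
        obtain ⟨z, hz⟩ := hdir.finite_le (fun i : Fin n => (⟨R i, hR i⟩ : c))
        exact Set.mem_sUnion.2 ⟨z, z.2, (hc z.2).1.2 n f u v fun i => hz i (hu i)⟩
      · intro h
        obtain ⟨R, hR, hu⟩ := Set.mem_sUnion.1 h
        exact (hc hR).2 hu)
  refine ⟨fun u v => (u, v) ∈ m, hm.prop.1, hm.prop.2, fun θ' h1 h2 ⟨c, d, h3, h4⟩ => ?_⟩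
  by_contra h5
  have h6 : ({p | θ' p.1 p.2} : Set (B × B)) ∈ {R : Set (B × B) |
      Cong (L := L) B (fun u v => (u, v) ∈ R) ∧ (x, y) ∉ R} := ⟨h1, h5⟩
  have h7 := hm.le_of_ge h6 (fun p hp => h2 p.1 p.2 hp)
  exact h4 (h7 h3)

section Quot

variable {B : Type} [L.Structure B]

/-- the setoid of a congruence -/
def Cong.setoid {θ : B → B → Prop} (h : Cong (L := L) B θ) : Setoid B := ⟨θ, h.1⟩

/-- the quotient algebra -/
noncomputable def Cong.str {θ : B → B → Prop} (h : Cong (L := L) B θ)
    (hL : ∀ n, IsEmpty (L.Relations n)) : L.Structure (Quotient h.setoid) where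
  funMap := fun f x => Quotient.mk h.setoid (funMap f (fun i => (x i).out))
  RelMap := fun {n} r _ => (hL n).elim r

theorem Cong.funMap_mk {θ : B → B → Prop} (h : Cong (L := L) B θ)
    (hL : ∀ n, IsEmpty (L.Relations n)) {n : ℕ} (f : L.Functions n) (x : Fin n → B) :
    @funMap L _ (h.str hL) n f (fun i => Quotient.mk h.setoid (x i)) =
      Quotient.mk h.setoid (funMap f x) :=
  Quotient.sound (h.2 n f _ _ fun i => Quotient.exact (Quotient.out_eq (Quotient.mk h.setoid (x i))))

theorem Cong.realize_mk {θ : B → B → Prop} (h : Cong (L := L) B θ)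
    (hL : ∀ n, IsEmpty (L.Relations n)) {α : Type} (t : L.Term α) (v : α → B) :
    @Term.realize L _ (h.str hL) α (fun a => Quotient.mk h.setoid (v a)) t =
      Quotient.mk h.setoid (t.realize v) := by
  let _ := h.str hL
  induction t with
  | var a => rfl
  | func f ts ih =>
    rw [Term.realize_func, Term.realize_func]
    simp only [ih]
    exact h.funMap_mk hL f _

theorem Cong.inV {θ : B → B → Prop} (h : Cong (L := L) B θ)
    (hL : ∀ n, IsEmpty (L.Relations n)) {A : Type} [L.Structure A] (hB : InV L A B) :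
    @InV L A (Quotient h.setoid) _ (h.str hL) := by
  intro s t hst w
  let _ := h.str hL
  have hw : w = fun i => Quotient.mk h.setoid ((w i).out) := by
    funext i
    exact (Quotient.out_eq _).symm
  rw [hw]
  erw [h.realize_mk hL s, h.realize_mk hL t]
  rw [hB s t hst]

theorem Cong.eqN {θ : B → B → Prop} (h : Cong (L := L) B θ)
    (hL : ∀ n, IsEmpty (L.Relations n)) {A : Type} [L.Structure A] {n : ℕ} (hB : EqN L n A B) :
    @EqN L n A (Quotient h.setoid) _ (h.str hL) := by
  intro s t hst w
  let _ := h.str hL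
  have hw : w = fun i => Quotient.mk h.setoid ((w i).out) := by
    funext i
    exact (Quotient.out_eq _).symm
  rw [hw]
  erw [h.realize_mk hL s, h.realize_mk hL t]
  rw [hB s t hst]

theorem Cong.siw {θ : B → B → Prop} (h : Cong (L := L) B θ)
    (hL : ∀ n, IsEmpty (L.Relations n)) {x y : B} (hxy : ¬ θ x y)
    (hmax : ∀ θ' : B → B → Prop, Cong (L := L) B θ' →
      (∀ u v, θ u v → θ' u v) → (∃ c d, θ' c d ∧ ¬ θ c d) → θ' x y) :
    @SIw L (Quotient h.setoid) (h.str hL) (Quotient.mk h.setoid x) (Quotient.mk h.setoid y) := by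
  let _ := h.str hL
  refine ⟨fun he => hxy (Quotient.exact he), fun ψ hψ ⟨c, d, hcd, hψcd⟩ => ?_⟩
  obtain ⟨c, rfl⟩ := Quotient.exists_rep c
  obtain ⟨d, rfl⟩ := Quotient.exists_rep d
  refine hmax (fun u v => ψ (Quotient.mk h.setoid u) (Quotient.mk h.setoid v))
    ⟨⟨fun _ => hψ.1.refl _, fun h => hψ.1.symm h, fun h h' => hψ.1.trans h h'⟩,
      fun n f u v huv => ?_⟩ (fun u v huv => ?_) ⟨c, d, hψcd, fun hcd' => hcd (Quotient.sound hcd')⟩
  · have := hψ.2 n f _ _ huv
    rw [h.funMap_mk hL, h.funMap_mk hL] at this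
    exact this
  · have : Quotient.mk h.setoid u = Quotient.mk h.setoid v := Quotient.sound huv
    rw [this]
    exact hψ.1.refl _

end Quot

/-- three pairwise different elements -/
theorem two_of_card {Q : Type} [Finite Q] (h : Nat.card Q ≤ 2) {a b : Q} (hab : a ≠ b) (z : Q) :
    z = a ∨ z = b := by
  classical
  by_contra hcon
  rw [not_or] at hcon
  have : Fintype Q := Fintype.ofFinite Q
  rw [Nat.card_eq_fintype_card] at h
  have h1 : ({z, a, b} : Finset Q).card = 3 := by
    rw [Finset.card_insert_of_notMem, Finset.card_insert_of_notMem, Finset.card_singleton]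
    · rw [Finset.mem_singleton]
      exact hab
    · rw [Finset.mem_insert, Finset.mem_singleton, not_or]
      exact hcon
  have h2 := Finset.card_le_univ ({z, a, b} : Finset Q)
  omega

/-- two-valued homomorphisms separate the points of the algebras of the variety -/
theorem sep2_of_inV (hL : ∀ n, IsEmpty (L.Relations n)) {A : Type} [L.Structure A]
    (hA : ∀ (B : Type) [L.Structure B], InV L A B → (∃ a b : B, SIw L B a b) →
      Finite B ∧ Nat.card B ≤ 2)
    {B : Type} [L.Structure B] (hB : InV L A B) : Sep2 L B := by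
  classical
  intro x y hxy
  obtain ⟨θ, hθ, hne, hmax⟩ := exists_max_cong (L := L) hxy
  let _ := hθ.str hL
  obtain ⟨hfin, hcard⟩ := hA (Quotient hθ.setoid) (hθ.inV hL hB) ⟨_, _, hθ.siw hL hne hmax⟩
  have h2 : ∀ z : B, θ z x ∨ θ z y := by
    intro z
    rcases two_of_card hcard (fun he => hne (Quotient.exact he)) (Quotient.mk hθ.setoid z) with h | h
    · exact Or.inl (Quotient.exact h)
    · exact Or.inr (Quotient.exact h)
  obtain ⟨h, hh⟩ : ∃ h : B → Bool, ∀ z, h z = decide (θ z y) := ⟨_, fun _ => rfl⟩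
  have hθh : ∀ z, θ z (if h z then y else x) := by
    intro z
    by_cases hz : θ z y
    · rw [hh, decide_eq_true hz, if_pos rfl]
      exact hz
    · rw [hh, decide_eq_false hz, if_neg (by decide)]
      exact (h2 z).resolve_right hz
  have hcongr : ∀ u v, θ u v → h u = h v := by
    intro u v huv
    rw [hh, hh]
    by_cases hv : θ v y
    · rw [decide_eq_true hv, decide_eq_true (hθ.1.trans huv hv)]
    · rw [decide_eq_false hv, decide_eq_false (fun hu => hv (hθ.1.trans (hθ.1.symm huv) hu))]
  refine ⟨fun n f v => h (funMap f (fun i => if v i then y else x)), h, fun n f z => ?_, ?_⟩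
  · exact hcongr _ _ (hθ.2 n f _ _ fun i => hθh (z i))
  · rw [hh, hh, decide_eq_false hne, decide_eq_true (hθ.1.refl y)]
    decide

/-- the elements of a generated subalgebra are values of terms -/
theorem exists_term {S : Type} [L.Structure S] {n : ℕ} {G : Finset S} {g : Fin n → S}
    (hg : ∀ x ∈ G, ∃ i, g i = x) {x : S} (hx : x ∈ (Cl G : L.Substructure S)) :
    ∃ t : L.Term (Fin n), t.realize g = x := by
  let U : L.Substructure S :=
    { carrier := {x | ∃ t : L.Term (Fin n), t.realize g = x}
      fun_mem := by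
        intro k f y hy
        choose t ht using hy
        exact ⟨Term.func f t, by rw [Term.realize_func]; simp only [ht]⟩ }
  have hle : (Cl G : L.Substructure S) ≤ U := by
    refine Substructure.closure_le.2 fun y hy => ?_
    obtain ⟨i, hi⟩ := hg y (by exact_mod_cast hy)
    exact ⟨Term.var i, hi⟩
  exact hle hx

theorem realize_coe {S : Type} [L.Structure S] {T : L.Substructure S} {α : Type} (t : L.Term α)
    (v : α → T) : ((t.realize v : T) : S) = t.realize (fun a => (v a : S)) := by
  induction t with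
  | var a => rfl
  | func f ts ih =>
    rw [Term.realize_func, Term.realize_func]
    show funMap f (fun i => (((ts i).realize v : T) : S)) = _
    simp only [ih]

/-- small subalgebras lie in the variety -/
theorem inV_sub {A S : Type} [L.Structure A] [L.Structure S] {n : ℕ} (hS : EqN L n A S)
    {G : Finset S} (hG : G.card ≤ n) : InV L A (Cl G : L.Substructure S) := by
  classical
  intro s t hst w
  obtain ⟨g, hg, hgm⟩ : ∃ g : Fin n → S, (∀ x ∈ G, ∃ i, g i = x) ∧
      ∀ i, g i ∈ (Cl G : L.Substructure S) := by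
    refine ⟨fun i => if h : i.val < G.card then (G.equivFin.symm ⟨i.val, h⟩ : S) else w 0,
      fun x hx => ?_, fun i => ?_⟩
    · refine ⟨⟨(G.equivFin ⟨x, hx⟩).val, (G.equivFin ⟨x, hx⟩).2.trans_le hG⟩, ?_⟩
      beta_reduce
      rw [dif_pos (G.equivFin ⟨x, hx⟩).2]
      simp
    · beta_reduce
      split_ifs with h
      · exact mem_Cl (G.equivFin.symm ⟨i.val, h⟩).2
      · exact (w 0).2
  choose τ hτ using fun i => exists_term hg (w i).2
  apply Subtype.ext
  rw [realize_coe, realize_coe]
  have h1 := hS (s.subst τ) (t.subst τ) (fun v => by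
    rw [Term.realize_subst, Term.realize_subst, hst]) g
  rw [Term.realize_subst, Term.realize_subst] at h1
  simp only [hτ] at h1
  exact h1

end Pool.Agent.H34.Park
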