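import Pool.Agent.H34.Park.Join

/-!
# Algebras with a join term all of whose operations preserve the join
-/

set_option autoImplicit false

open FirstOrder FirstOrder.Language FirstOrder.Language.Structure

namespace Pool.Agent.H34.Park

variable {L : FirstOrder.Language.{0, 0}}

theorem semi_survivor {B C : BStr L} {j : L.Term (Fin 2)}
    (hj : ∀ x y, ev B j ![x, y] = (x || y))
    (hs : ∀ n (f : L.Functions n) v w, B n f (fun i => v i || w i) = (B n f v || B n f w))
    {s : Bool}
    (ha : ∀ t : L.Term (Fin 2), (∀ x y, ev B t ![x, y] = x) → ∀ x y, ev C t ![x, y] = x)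
    (hb : ∀ t : L.Term (Fin 2), (∀ x y, ev B t ![x, y] = (x || y)) →
        ∀ x y, ev C t ![x, y] = xor s (xor s x || xor s y)) {n : ℕ} (f : L.Functions n)
    (hf : B n f (fun _ => false) = false) (e : Fin n → Bool) :
    C n f (fun i => xor s (e i)) = xor s (B n f e) := by
  obtain ⟨t, ht⟩ : ∃ t, t = mnr (basic f) e := ⟨_, rfl⟩
  have htB : ∀ x y, ev B t ![x, y] = B n f (fun k => if e k then y else x) := by
    intro x y
    rw [ht, ev_mnr, ev_basic]
  have h00 : ev B t ![false, false] = false := by
    rw [htB]
    refine Eq.trans ?_ hf
    congr 1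
    funext k
    split_ifs <;> rfl
  have h01 : ev B t ![false, true] = B n f e := by
    rw [htB]
    congr 1
    funext k
    cases e k <;> rfl
  have h11 : ev B t ![true, true] = (ev B t ![false, true] || ev B t ![true, false]) := by
    rw [htB, htB, htB, ← hs]
    congr 1
    funext k
    cases e k <;> rfl
  have hC : ev C t ![xor s false, xor s true] = C n f (fun i => xor s (e i)) := by
    rw [ht, ev_mnr, ev_basic]
    congr 1
    funext k
    cases e k <;> rfl
  rw [← hC, ← h01]
  cases hp : ev B t ![false, true] <;> cases hq : ev B t ![true, false]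
  · -- zero
    rw [hp, hq] at h11
    have h1 := ha (b2 j X t) (fun x y => by
      rw [ev_b2, ev_X, hj]
      cases x <;> cases y
      · rw [h00]; rfl
      · rw [hp]; rfl
      · rfl
      · rfl) (xor s false) (xor s true)
    rw [ev_b2, ev_X, hb j hj] at h1
    revert h1
    generalize ev C t ![xor s false, xor s true] = q
    cases s <;> cases q <;> decide
  · -- first projection
    rw [hp, hq] at h11
    rw [ha t (fun x y => by
      cases x <;> cases y
      · rw [h00]
      · rw [hp]
      · rw [hq]
      · rw [h11]; rfl)]
  · -- second projection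
    rw [hp, hq] at h11
    have h1 := ha (b2 t Y X) (fun x y => by
      rw [ev_b2, ev_X, ev_Y]
      cases x <;> cases y
      · rw [h00]
      · rw [hq]
      · rw [hp]
      · rw [h11]; rfl) (xor s true) (xor s false)
    rw [ev_b2, ev_X, ev_Y] at h1
    exact h1
  · -- join
    rw [hp, hq] at h11
    rw [hb t (fun x y => by
      cases x <;> cases y
      · rw [h00]; rfl
      · rw [hp]; rfl
      · rw [hq]; rfl
      · rw [h11])]
    cases s <;> rfl

/-- normalised survivors -/
def Nrm (B : BStr L) {A : Type} [L.Structure A] (k : A → Bool) : Prop :=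
  ∃ (C : BStr L) (g : A → Bool) (s : Bool), IsHom C g ∧ PJ B C ∧
    (∀ t : L.Term (Fin 2), (∀ x y, ev B t ![x, y] = x) → ∀ x y, ev C t ![x, y] = x) ∧
    (∀ t : L.Term (Fin 2), (∀ x y, ev B t ![x, y] = (x || y)) →
        ∀ x y, ev C t ![x, y] = xor s (xor s x || xor s y)) ∧ k = fun x => xor s (g x)

theorem xor_xor_self (s x : Bool) : xor s (xor s x) = x := by
  rw [← Bool.xor_assoc, Bool.xor_self, Bool.false_xor]

section

variable {A : Type} [L.Structure A]

theorem Nrm.fst {B : BStr L} {k : A → Bool} (hk : Nrm B k) {t : L.Term (Fin 2)}
    (ht : ∀ x y, ev B t ![x, y] = x) (x y : A) : k (o2 t x y) = k x := by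
  obtain ⟨C, g, s, hg, _, ha, _, rfl⟩ := hk
  beta_reduce
  rw [hg.o2, ha t ht]

theorem Nrm.snd {B : BStr L} {k : A → Bool} (hk : Nrm B k) {t : L.Term (Fin 2)}
    (ht : ∀ x y, ev B t ![x, y] = y) (x y : A) : k (o2 t x y) = k y := by
  obtain ⟨C, g, s, hg, _, ha, _, rfl⟩ := hk
  beta_reduce
  rw [hg.o2]
  have := ha (b2 t Y X) (fun x y => by rw [ev_b2, ev_X, ev_Y, ht]) (g y) (g x)
  rw [ev_b2, ev_X, ev_Y] at this
  rw [this]

theorem Nrm.join {B : BStr L} {k : A → Bool} (hk : Nrm B k) {t : L.Term (Fin 2)}
    (ht : ∀ x y, ev B t ![x, y] = (x || y)) (x y : A) : k (o2 t x y) = (k x || k y) := by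
  obtain ⟨C, g, s, hg, _, _, hb, rfl⟩ := hk
  beta_reduce
  rw [hg.o2, hb t ht, xor_xor_self]

theorem Nrm.op {B : BStr L} {k : A → Bool} (hk : Nrm B k) {j : L.Term (Fin 2)}
    (hj : ∀ x y, ev B j ![x, y] = (x || y))
    (hs : ∀ n (f : L.Functions n) v w, B n f (fun i => v i || w i) = (B n f v || B n f w))
    {n : ℕ} (f : L.Functions n) (hf : B n f (fun _ => false) = false) (x : Fin n → A) :
    k (funMap f x) = B n f (fun i => k (x i)) := by
  obtain ⟨C, g, s, hg, _, ha, hb, rfl⟩ := hk
  beta_reduce
  have h1 := semi_survivor hj hs ha hb f hf (fun i => xor s (g (x i)))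
  simp only [xor_xor_self] at h1
  rw [hg, h1, xor_xor_self]

theorem le_iff (hA : Sep2 L A) {B : BStr L} {j : L.Term (Fin 2)}
    (hj : ∀ x y, ev B j ![x, y] = (x || y)) {l r : L.Term (Fin 2)}
    (hlr : Ok B (fun x y => x || y) (fun _ y => y) {C | ¬ PJ B C} l r) {x y : A} :
    o2 l x y = o2 r x y ↔ ∀ k : A → Bool, Nrm B k → (k x || k y) = k y := by
  constructor
  · intro h k hk
    have h1 := congrArg k h
    rw [hk.join hlr.1, hk.snd hlr.2.1] at h1
    exact h1
  · intro h
    refine le_eq hA hj hlr fun C g s hg hP ha hb => ?_
    exact h (fun x => xor s (g x)) ⟨C, g, s, hg, hP, ha, hb, rfl⟩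

theorem le_hom {B : BStr L} {l r : L.Term (Fin 2)}
    {H : Set (BStr L)} (hlr : Ok B (fun x y => x || y) (fun _ y => y) H l r) {x y : A}
    (h : o2 l x y = o2 r x y) {T : L.Substructure A} {g : A → Bool} (hg : HomOn B T g)
    (hx : x ∈ T) (hy : y ∈ T) (hgy : g y = false) : g x = false := by
  have := hlr.hom h hg hx hy
  rw [hgy] at this
  revert this
  cases g x <;> decide

/-- the dichotomy for the down set of an element -/
theorem semi_dich (hA : Sep2 L A) {B : BStr L} {j : L.Term (Fin 2)}
    (hj : ∀ x y, ev B j ![x, y] = (x || y))
    (hs : ∀ n (f : L.Functions n) v w, B n f (fun i => v i || w i) = (B n f v || B n f w))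
    {l r : L.Term (Fin 2)}
    (hlr : Ok B (fun x y => x || y) (fun _ y => y) {C | ¬ PJ B C} l r) (y : A) :
    (∃ (n : ℕ) (f : L.Functions n) (x : Fin n → A), B n f (fun _ => false) = true ∧
      o2 l (funMap f x) y = o2 r (funMap f x) y) ∨
    ∃ h : A → Bool, IsHom B h ∧ ∀ x, h x = false ↔ o2 l x y = o2 r x y := by
  classical
  by_cases hex : ∃ (n : ℕ) (f : L.Functions n) (x : Fin n → A), B n f (fun _ => false) = true ∧
      o2 l (funMap f x) y = o2 r (funMap f x) y
  · exact Or.inl hex
  · right
    push Not at hex
    obtain ⟨h, hh⟩ : ∃ h : A → Bool, ∀ x, h x = false ↔ o2 l x y = o2 r x y := by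
      refine ⟨fun x => !(decide (o2 l x y = o2 r x y)), fun x => ?_⟩
      by_cases hx : o2 l x y = o2 r x y <;> simp [hx]
    refine ⟨h, fun n f x => ?_, hh⟩
    cases hf : B n f (fun _ => false)
    · -- join of some arguments
      have hmono : ∀ v w : Fin n → Bool, (∀ i, v i = true → w i = true) → B n f v = true →
          B n f w = true := by
        intro v w hvw hv
        have h1 := hs n f v w
        have h2 : (fun i => v i || w i) = w := by
          funext i
          have := hvw i
          revert this
          cases v i <;> cases w i <;> simp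
        rw [h2, hv] at h1
        rw [h1]
        rfl
      -- value on a vector whose true coordinates are all inessential
      have hfin : ∀ v : Fin n → Bool, (∀ i, v i = true → B n f (fun k => decide (k = i)) = false) →
          B n f v = false := by
        intro v hv
        have key : ∀ S : Finset (Fin n), (∀ i ∈ S, v i = true) →
            B n f (fun k => decide (k ∈ S)) = false := by
          intro S
          induction S using Finset.induction_on with
          | empty =>
            intro _
            simpa using hf
          | insert i S _ ih =>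
            intro hS
            have h1 := hs n f (fun k => decide (k = i)) (fun k => decide (k ∈ S))
            rw [hv i (hS i (Finset.mem_insert_self _ _)),
              ih fun k hk => hS k (Finset.mem_insert_of_mem hk)] at h1
            have h2 : (fun k => decide (k ∈ insert i S)) =
                fun k => (decide (k = i) || decide (k ∈ S)) := by
              funext k
              by_cases h3 : k = i <;> by_cases h4 : k ∈ S <;> simp [h3, h4]
            rw [h2, h1]
            rfl
        have h1 := key (Finset.univ.filter fun i => v i = true) (fun i hi => by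
          simpa using hi)
        have h2 : (fun k => decide (k ∈ Finset.univ.filter fun i => v i = true)) = v := by
          funext k
          cases hk : v k <;> simp [hk]
        rwa [h2] at h1
      by_cases hle : o2 l (funMap f x) y = o2 r (funMap f x) y
      · rw [(hh _).2 hle]
        symm
        refine hfin _ fun i hi => ?_
        by_contra hne
        have hne' : B n f (fun k => decide (k = i)) = true := by simpa using hne
        have : o2 l (x i) y = o2 r (x i) y := by
          refine (le_iff hA hj hlr).2 fun k hk => ?_
          have h1 := (le_iff hA hj hlr).1 hle k hk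
          rw [hk.op hj hs f hf] at h1
          cases hki : k (x i)
          · rfl
          · have h2 : B n f (fun i => k (x i)) = true := by
              refine hmono _ _ (fun a ha => ?_) hne'
              have : a = i := by simpa using ha
              rw [this]
              exact hki
            rw [h2] at h1
            exact h1
        rw [← hh] at this
        beta_reduce at hi
        rw [this] at hi
        exact absurd hi (by decide)
      · have h0 : h (funMap f x) = true := by
          cases h1 : h (funMap f x)
          · exact absurd ((hh _).1 h1) hle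
          · rfl
        rw [h0]
        symm
        by_contra hne
        have hne' : B n f (fun i => h (x i)) = false := by simpa using hne
        refine hle ((le_iff hA hj hlr).2 fun k hk => ?_)
        rw [hk.op hj hs f hf]
        cases hky : k y
        · have h2 : B n f (fun i => k (x i)) = false := by
            by_contra h3
            have h3' : B n f (fun i => k (x i)) = true := by simpa using h3
            have h4 : B n f (fun i => h (x i)) = true := by
              refine hmono _ _ (fun a ha => ?_) h3'
              by_contra h5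
              have h5' : h (x a) = false := by simpa using h5
              have h6 := (le_iff hA hj hlr).1 ((hh _).1 h5') k hk
              beta_reduce at ha
              rw [ha, hky] at h6
              exact absurd h6 (by decide)
            rw [h4] at hne'
            exact absurd hne' (by decide)
          rw [h2]
          rfl
        · exact Bool.or_true _
    · -- constant one
      have h1 : B n f (fun i => h (x i)) = true := by
        have h2 := hs n f (fun _ => false) (fun i => h (x i))
        rw [hf] at h2
        simp only [Bool.false_or, Bool.true_or] at h2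
        exact h2
      rw [h1]
      by_contra hne
      have hne' : h (funMap f x) = false := by simpa using hne
      exact hex n f x hf ((hh _).1 hne')

end

/-- a bounded finite set containing given elements -/
theorem card_bound {A : Type} [DecidableEq A] {N : ℕ} {n : ℕ} (hn : n ≤ N) (c a1 a2 a3 : A)
    (x : Fin n → A) : (({c, a1, a2, a3} : Finset A) ∪ Finset.univ.image x).card ≤ 4 + N := by
  refine (Finset.card_union_le _ _).trans ?_
  refine Nat.add_le_add (card4 _ _ _ _) ?_
  refine Finset.card_image_le.trans ?_
  rw [Finset.card_univ, Fintype.card_fin]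
  exact hn

/-- the case of a join term preserved by the operations -/
theorem good_semi [Finite (BStr L)] {N : ℕ} (hN : ∀ n (_ : L.Functions n), n ≤ N) {B : BStr L}
    {j : L.Term (Fin 2)} (hj : ∀ x y, ev B j ![x, y] = (x || y))
    (hs : ∀ n (f : L.Functions n) v w, B n f (fun i => v i || w i) = (B n f v || B n f w)) :
    Good B := by
  classical
  obtain ⟨l, r, hlr⟩ := exists_lePair hj
  refine ⟨(4 + N) + (4 + N), fun A _ hA c a1 a2 a3 hno => ?_⟩
  -- constant one operations are one under every homomorphism
  have hone : ∀ n (f : L.Functions n), B n f (fun _ => false) = true → ∀ v, B n f v = true := by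
    intro n f hf v
    have h2 := hs n f (fun _ => false) v
    rw [hf] at h2
    simp only [Bool.false_or, Bool.true_or] at h2
    exact h2
  -- first orientation
  obtain ⟨G1, hG1, c1, a11, a12, a13, h1⟩ : ∃ G : Finset A, G.card ≤ 4 + N ∧ c ∈ G ∧ a1 ∈ G ∧
      a2 ∈ G ∧ a3 ∈ G ∧ ∀ h : A → Bool, HomOn B (Cl G) h → h a1 = false → h a2 = false →
        h a3 = false → h c = false := by
    rcases semi_dich hA hj hs hlr (o2 j (o2 j a1 a2) a3) with ⟨n, f, x, hf, hle⟩ | ⟨h, hh, hle⟩
    · refine ⟨_, card_bound (hN n f) c a1 a2 a3 x, by simp, by simp, by simp, by simp, ?_⟩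
      intro h hh h1 h2 h3
      have m1 : a1 ∈ (Cl (({c, a1, a2, a3} : Finset A) ∪ Finset.univ.image x) :
        L.Substructure A) := mem_Cl (by simp)
      have m2 : a2 ∈ (Cl (({c, a1, a2, a3} : Finset A) ∪ Finset.univ.image x) :
        L.Substructure A) := mem_Cl (by simp)
      have m3 : a3 ∈ (Cl (({c, a1, a2, a3} : Finset A) ∪ Finset.univ.image x) :
        L.Substructure A) := mem_Cl (by simp)
      have mx : ∀ i, x i ∈ (Cl (({c, a1, a2, a3} : Finset A) ∪ Finset.univ.image x) :
        L.Substructure A) := fun i => mem_Cl (by simp)
      have e1 := le_hom hlr hle hh (Substructure.fun_mem _ f x mx)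
        (o2_mem j (o2_mem j m1 m2) m3) (by
          rw [hh.o2 j (o2_mem j m1 m2) m3, hh.o2 j m1 m2, hj, hj, h1, h2, h3]
          rfl)
      rw [hh n f x mx, hone n f hf] at e1
      exact absurd e1 (by decide)
    · refine ⟨{c, a1, a2, a3}, (card4 _ _ _ _).trans (Nat.le_add_right _ _), by simp, by simp,
        by simp, by simp, ?_⟩
      intro h' hh' h1 h2 h3
      have mc : c ∈ (Cl ({c, a1, a2, a3} : Finset A) : L.Substructure A) := mem_Cl (by simp)
      have m1 : a1 ∈ (Cl ({c, a1, a2, a3} : Finset A) : L.Substructure A) := mem_Cl (by simp)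
      have m2 : a2 ∈ (Cl ({c, a1, a2, a3} : Finset A) : L.Substructure A) := mem_Cl (by simp)
      have m3 : a3 ∈ (Cl ({c, a1, a2, a3} : Finset A) : L.Substructure A) := mem_Cl (by simp)
      have k1 : h a1 = false := by
        rw [hle, le_iff hA hj hlr]
        intro k hk
        rw [hk.join hj, hk.join hj]
        cases k a1 <;> cases k a2 <;> cases k a3 <;> rfl
      have k2 : h a2 = false := by
        rw [hle, le_iff hA hj hlr]
        intro k hk
        rw [hk.join hj, hk.join hj]
        cases k a1 <;> cases k a2 <;> cases k a3 <;> rfl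
      have k3 : h a3 = false := by
        rw [hle, le_iff hA hj hlr]
        intro k hk
        rw [hk.join hj, hk.join hj]
        cases k a1 <;> cases k a2 <;> cases k a3 <;> rfl
      have kc := hno h hh (by rw [k1, k2]) (by rw [k1, k3])
      rw [k1, hle] at kc
      exact le_hom hlr kc hh' mc (o2_mem j (o2_mem j m1 m2) m3) (by
          rw [hh'.o2 j (o2_mem j m1 m2) m3, hh'.o2 j m1 m2, hj, hj, h1, h2, h3]
          rfl)
  -- second orientation
  obtain ⟨G2, hG2, c2, a21, a22, a23, h2⟩ : ∃ G : Finset A, G.card ≤ 4 + N ∧ c ∈ G ∧ a1 ∈ G ∧
      a2 ∈ G ∧ a3 ∈ G ∧ ∀ h : A → Bool, HomOn B (Cl G) h → h a1 = true → h a2 = true →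
        h a3 = true → h c = true := by
    rcases semi_dich hA hj hs hlr c with ⟨n, f, x, hf, hle⟩ | ⟨h, hh, hle⟩
    · refine ⟨_, card_bound (hN n f) c a1 a2 a3 x, by simp, by simp, by simp, by simp, ?_⟩
      intro h hh h1 h2 h3
      have mc : c ∈ (Cl (({c, a1, a2, a3} : Finset A) ∪ Finset.univ.image x) :
        L.Substructure A) := mem_Cl (by simp)
      have mx : ∀ i, x i ∈ (Cl (({c, a1, a2, a3} : Finset A) ∪ Finset.univ.image x) :
        L.Substructure A) := fun i => mem_Cl (by simp)
      by_contra hc
      have hc' : h c = false := by simpa using hc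
      have e1 := le_hom hlr hle hh (Substructure.fun_mem _ f x mx) mc hc'
      rw [hh n f x mx, hone n f hf] at e1
      exact absurd e1 (by decide)
    · refine ⟨{c, a1, a2, a3}, (card4 _ _ _ _).trans (Nat.le_add_right _ _), by simp, by simp,
        by simp, by simp, ?_⟩
      intro h' hh' h1 h2 h3
      have mc : c ∈ (Cl ({c, a1, a2, a3} : Finset A) : L.Substructure A) := mem_Cl (by simp)
      have m1 : a1 ∈ (Cl ({c, a1, a2, a3} : Finset A) : L.Substructure A) := mem_Cl (by simp)
      have m2 : a2 ∈ (Cl ({c, a1, a2, a3} : Finset A) : L.Substructure A) := mem_Cl (by simp)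
      have m3 : a3 ∈ (Cl ({c, a1, a2, a3} : Finset A) : L.Substructure A) := mem_Cl (by simp)
      by_contra hc
      have hc' : h' c = false := by simpa using hc
      have kc : h c = false := by
        rw [hle, le_iff hA hj hlr]
        intro k hk
        cases k c <;> rfl
      have k1 : h a1 = true := by
        by_contra hk
        have hk' : h a1 = false := by simpa using hk
        have := le_hom hlr ((hle _).1 hk') hh' m1 mc hc'
        rw [this] at h1
        exact absurd h1 (by decide)
      have k2 : h a2 = true := by
        by_contra hk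
        have hk' : h a2 = false := by simpa using hk
        have := le_hom hlr ((hle _).1 hk') hh' m2 mc hc'
        rw [this] at h2
        exact absurd h2 (by decide)
      have k3 : h a3 = true := by
        by_contra hk
        have hk' : h a3 = false := by simpa using hk
        have := le_hom hlr ((hle _).1 hk') hh' m3 mc hc'
        rw [this] at h3
        exact absurd h3 (by decide)
      have := hno h hh (by rw [k1, k2]) (by rw [k1, k3])
      rw [kc, k1] at this
      exact absurd this (by decide)
  refine ⟨G1 ∪ G2, (Finset.card_union_le _ _).trans (Nat.add_le_add hG1 hG2),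
    Finset.mem_union_left _ c1, Finset.mem_union_left _ a11, Finset.mem_union_left _ a12,
    Finset.mem_union_left _ a13, fun h hh h12 h13 => ?_⟩
  have u1 : HomOn B (Cl G1) h := hh.mono
    (Substructure.closure_mono (by
      rw [Finset.coe_union]
      exact Set.subset_union_left))
  have u2 : HomOn B (Cl G2) h := hh.mono
    (Substructure.closure_mono (by
      rw [Finset.coe_union]
      exact Set.subset_union_right))
  cases hv : h a1
  · exact h1 h u1 hv (by rw [← h12, hv]) (by rw [← h13, hv])
  · exact h2 h u2 hv (by rw [← h12, hv]) (by rw [← h13, hv])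

end Pool.Agent.H34.Park
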