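import Pool.Agent.H34.Park.Basic

/-!
# One equation that separates a two-element algebra from the others
-/

set_option autoImplicit false

open FirstOrder FirstOrder.Language FirstOrder.Language.Structure

namespace Pool.Agent.H34.Park

variable {L : FirstOrder.Language.{0, 0}}

theorem bool_fun (u : Bool → Bool) (h : u false ≠ u true) : (∀ x, u x = x) ∨ (∀ x, u x = !x) := by
  cases h0 : u false <;> cases h1 : u true
  · rw [h0, h1] at h
    exact absurd rfl h
  · left
    intro x
    cases x
    · exact h0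
    · exact h1
  · right
    intro x
    cases x
    · exact h0
    · exact h1
  · rw [h0, h1] at h
    exact absurd rfl h

theorem bool_ne (u : Bool → Bool) (h : u false ≠ u true) {p a : Bool} (hp : p ≠ u a) :
    p = u (!a) := by
  rcases bool_fun u h with h1 | h1
  · rw [h1] at hp
    rw [h1]
    revert hp
    cases p <;> cases a <;> simp
  · rw [h1] at hp
    rw [h1]
    revert hp
    cases p <;> cases a <;> simp

/-- every term that is a projection in `B` is that projection or its negation in `C` -/
def PT (B C : BStr L) : Prop :=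
  ∀ (n : ℕ) (t : L.Term (Fin n)) (i : Fin n), (∀ v, ev B t v = v i) →
    (∀ v, ev C t v = v i) ∨ (∀ v, ev C t v = !(v i))

/-- a bad pair for `PT` gives a binary term -/
theorem not_PT {B C : BStr L} (h : ¬ PT B C) :
    ∃ t : L.Term (Fin 2), (∀ x y, ev B t ![x, y] = x) ∧
      (ev C t ![false, true] = ev C t ![true, false] ∨
        ∀ x y, ev C t ![x, y] = ev C t ![y, y]) := by
  unfold PT at h
  push Not at h
  obtain ⟨n, t, i, hB, ⟨v1, hv1⟩, ⟨v2, hv2⟩⟩ := h
  -- the unary minor
  obtain ⟨u, hu⟩ : ∃ u : Bool → Bool, ∀ x, u x = ev C t (fun _ => x) := ⟨_, fun _ => rfl⟩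
  by_cases hc : u false = u true
  · -- constant
    refine ⟨mnr t (fun _ => false), fun x y => ?_, Or.inl ?_⟩
    · rw [ev_mnr, hB]
      rfl
    · rw [ev_mnr, ev_mnr]
      rw [hu, hu] at hc
      exact hc
  · -- a vector where `t` differs from the unary minor at the anchored coordinate
    have hex : ∃ v, ev C t v ≠ u (v i) := by
      by_contra hcon
      push Not at hcon
      rcases bool_fun u hc with h1 | h1
      · exact hv1 (by rw [hcon v1, h1])
      · exact hv2 (by rw [hcon v2, h1])
    obtain ⟨v, hv⟩ := hex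
    -- the minor: `x` for the coordinates equal to `v i`
    obtain ⟨a, ha⟩ : ∃ a, v i = a := ⟨_, rfl⟩
    rw [ha] at hv
    have hBt : ∀ x y, ev B (mnr t (fun k => v k != a)) ![x, y] = x := by
      intro x y
      rw [ev_mnr, hB, ha]
      simp
    have h1 : ev C (mnr t (fun k => v k != a)) ![a, !a] = ev C t v := by
      rw [ev_mnr]
      congr 1
      funext k
      cases h2 : v k <;> cases h3 : a <;> simp
    have h2 : ∀ x, ev C (mnr t (fun k => v k != a)) ![x, x] = u x := by
      intro x
      rw [ev_mnr, hu]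
      congr 1
      funext k
      split_ifs <;> rfl
    have h3 : ev C (mnr t (fun k => v k != a)) ![a, !a] = u (!a) := by
      rw [h1]
      exact bool_ne u hc hv
    refine ⟨mnr t (fun k => v k != a), hBt, ?_⟩
    generalize mnr t (fun k => v k != a) = s at *
    by_cases h4 : ev C s ![!a, a] = u (!a)
    · left
      cases a
      · rw [Bool.not_false] at h3 h4
        rw [h3, h4]
      · rw [Bool.not_true] at h3 h4
        rw [h3, h4]
    · right
      have h6 : ev C s ![!a, a] = u a := by
        have := bool_ne u hc h4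
        rwa [Bool.not_not] at this
      intro x y
      rw [h2]
      cases a
      · rw [Bool.not_false] at h3 h6
        cases x <;> cases y
        · exact h2 _
        · exact h3
        · exact h6
        · exact h2 _
      · rw [Bool.not_true] at h3 h6
        cases x <;> cases y
        · exact h2 _
        · exact h6
        · exact h3
        · exact h2 _

/-- a pair of binary terms with prescribed values in `B` which agree on the diagonal everywhere and
agree everywhere in the algebras of `H` -/
def Ok (B : BStr L) (α β : Bool → Bool → Bool) (H : Set (BStr L)) (l r : L.Term (Fin 2)) : Prop :=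
  (∀ x y, ev B l ![x, y] = α x y) ∧ (∀ x y, ev B r ![x, y] = β x y) ∧
    (∀ (C : BStr L) x, ev C l ![x, x] = ev C r ![x, x]) ∧
    ∀ C ∈ H, ∀ x y, ev C l ![x, y] = ev C r ![x, y]

theorem step_T {B : BStr L} {α β : Bool → Bool → Bool} {H : Set (BStr L)} {l r : L.Term (Fin 2)}
    (h : Ok B α β H l r) {C : BStr L} (hC : ¬ PT B C) :
    ∃ l' r', Ok B α β (insert C H) l' r' := by
  obtain ⟨t, ht, hcase⟩ := not_PT hC
  obtain ⟨h1, h2, h3, h4⟩ := h
  rcases hcase with hs | hy
  · -- symmetric: substitute
    refine ⟨b2 l t (b2 t Y X), b2 r t (b2 t Y X), ?_, ?_, ?_, ?_⟩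
    · intro x y
      rw [ev_b2, ev_b2, ev_X, ev_Y, ht, ht, h1]
    · intro x y
      rw [ev_b2, ev_b2, ev_X, ev_Y, ht, ht, h2]
    · intro D x
      simp only [ev_b2, ev_X, ev_Y, h3]
    · intro D hD x y
      simp only [ev_b2, ev_X, ev_Y]
      rcases Set.mem_insert_iff.1 hD with rfl | hD
      · have hsym : ev D t ![y, x] = ev D t ![x, y] := by
          cases x <;> cases y
          · rfl
          · exact hs.symm
          · exact hs
          · rfl
        rw [hsym, h3]
      · exact h4 D hD _ _
  · -- depends on the second variable only: wrap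
    refine ⟨b2 t l X, b2 t r X, ?_, ?_, ?_, ?_⟩
    · intro x y
      rw [ev_b2, ev_X, ht, h1]
    · intro x y
      rw [ev_b2, ev_X, ht, h2]
    · intro D x
      rw [ev_b2, ev_b2, ev_X, h3]
    · intro D hD x y
      rw [ev_b2, ev_b2, ev_X]
      rcases Set.mem_insert_iff.1 hD with rfl | hD
      · rw [hy, hy (ev D r ![x, y])]
      · rw [h4 D hD]

/-- **Lemma T** -/
theorem lemma_T [Finite (BStr L)] {B : BStr L} {α β : Bool → Bool → Bool} {l r : L.Term (Fin 2)}
    (h : Ok B α β ∅ l r) : ∃ l' r', Ok B α β {C | ¬ PT B C} l' r' := by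
  have key : ∀ S : Set (BStr L), S.Finite → S ⊆ {C | ¬ PT B C} →
      ∃ l' r', Ok B α β S l' r' := by
    intro S hS
    refine Set.Finite.induction_on S hS (motive := fun S _ => S ⊆ {C | ¬ PT B C} →
      ∃ l' r', Ok B α β S l' r') ?_ ?_
    · intro _
      exact ⟨l, r, h⟩
    · intro C S _ _ ih hsub
      obtain ⟨l', r', h'⟩ := ih fun D hD => hsub (Set.mem_insert_of_mem _ hD)
      exact step_T h' (hsub (Set.mem_insert _ _))
  exact key _ (Set.toFinite _) (le_refl _)

/-- the pair for the equality relation -/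
theorem exists_eqPair [Finite (BStr L)] (B : BStr L) :
    ∃ l r : L.Term (Fin 2), Ok B (fun x _ => x) (fun _ y => y) {C | ¬ PT B C} l r :=
  lemma_T (l := X) (r := Y) ⟨fun _ _ => rfl, fun _ _ => rfl, fun _ _ => rfl,
    fun _ h => absurd h (Set.notMem_empty _)⟩

/-- parallel for the join -/
def PJ (B C : BStr L) : Prop :=
  PT B C ∧ ∀ t : L.Term (Fin 2), (∀ x y, ev B t ![x, y] = (x || y)) →
    ¬ ((∀ x y, ev C t ![x, y] = ev C t ![y, y]) ∨ (∀ x y, ev C t ![x, y] = ev C t ![x, x]))

theorem step_R {B : BStr L} {H : Set (BStr L)} {l r : L.Term (Fin 2)}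
    (h : Ok B (fun x y => x || y) (fun _ y => y) H l r) {C : BStr L} (hC : ¬ PJ B C) :
    ∃ l' r', Ok B (fun x y => x || y) (fun _ y => y) (insert C H) l' r' := by
  by_cases hT : PT B C
  · have hex : ∃ t : L.Term (Fin 2), (∀ x y, ev B t ![x, y] = (x || y)) ∧
        ∀ x y, ev C t ![x, y] = ev C t ![y, y] := by
      unfold PJ at hC
      push Not at hC
      obtain ⟨t, ht, hcase⟩ := hC hT
      rcases hcase with h1 | h1
      · exact ⟨t, ht, h1⟩
      · refine ⟨b2 t Y X, fun x y => ?_, fun x y => ?_⟩
        · rw [ev_b2, ev_X, ev_Y, ht, Bool.or_comm]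
        · simp only [ev_b2, ev_X, ev_Y]
          rw [h1]
    obtain ⟨t, ht, hy⟩ := hex
    obtain ⟨h1, h2, h3, h4⟩ := h
    refine ⟨b2 t l r, b2 t r r, ?_, ?_, ?_, ?_⟩
    · intro x y
      rw [ev_b2, ht, h1, h2]
      cases x <;> cases y <;> rfl
    · intro x y
      rw [ev_b2, ht, h2, Bool.or_self]
    · intro D x
      rw [ev_b2, ev_b2, h3]
    · intro D hD x y
      rw [ev_b2, ev_b2]
      rcases Set.mem_insert_iff.1 hD with rfl | hD
      · rw [hy]
      · rw [h4 D hD]
  · exact step_T h hT

/-- **Lemma R** -/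
theorem exists_lePair [Finite (BStr L)] {B : BStr L} {j : L.Term (Fin 2)}
    (hj : ∀ x y, ev B j ![x, y] = (x || y)) :
    ∃ l r : L.Term (Fin 2), Ok B (fun x y => x || y) (fun _ y => y) {C | ¬ PJ B C} l r := by
  have key : ∀ S : Set (BStr L), S.Finite → S ⊆ {C | ¬ PJ B C} →
      ∃ l' r', Ok B (fun x y => x || y) (fun _ y => y) S l' r' := by
    intro S hS
    refine Set.Finite.induction_on S hS (motive := fun S _ => S ⊆ {C | ¬ PJ B C} →
      ∃ l' r', Ok B (fun x y => x || y) (fun _ y => y) S l' r') ?_ ?_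
    · intro _
      refine ⟨b2 j X Y, b2 j Y Y, fun x y => ?_, fun x y => ?_, fun D x => ?_,
        fun _ h => absurd h (Set.notMem_empty _)⟩
      · rw [ev_b2, ev_X, ev_Y, hj]
      · rw [ev_b2, ev_Y, hj, Bool.or_self]
      · rw [ev_b2, ev_b2, ev_X, ev_Y]
    · intro C S _ _ ih hsub
      obtain ⟨l', r', h'⟩ := ih fun D hD => hsub (Set.mem_insert_of_mem _ hD)
      exact step_R h' (hsub (Set.mem_insert _ _))
  exact key _ (Set.toFinite _) (le_refl _)

end Pool.Agent.H34.Park
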