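import Pool.Agent.H34.Park.Class

/-!
# The bounded witness property for all two-valued homomorphisms, and its form for subalgebras
-/

set_option autoImplicit false

open FirstOrder FirstOrder.Language FirstOrder.Language.Structure

namespace Pool.Agent.H34.Park

variable {L : FirstOrder.Language.{0, 0}}

theorem Cl_mono {A : Type} [L.Structure A] {G H : Finset A} (h : G ⊆ H) :
    (Cl G : L.Substructure A) ≤ Cl H :=
  Substructure.closure_mono (by exact_mod_cast h)

/-- bounded witnesses for the congruences given by two-valued homomorphisms -/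
theorem star [Finite (BStr L)] {N : ℕ} (hN : ∀ n (_ : L.Functions n), n ≤ N) :
    ∃ M : ℕ, ∀ (A : Type) [L.Structure A], Sep2 L A → ∀ a b c d : A,
      (∀ (B : BStr L) (h : A → Bool), IsHom B h → h a = h b → h c = h d) →
      ∃ G : Finset A, G.card ≤ M ∧ a ∈ G ∧ b ∈ G ∧ c ∈ G ∧ d ∈ G ∧
        ∀ (B : BStr L) (h : A → Bool), HomOn B (Cl G) h → h a = h b → h c = h d := by
  classical
  choose m hm using fun B : BStr L => good_all hN B
  have : Fintype (BStr L) := Fintype.ofFinite _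
  refine ⟨4 + ∑ B : BStr L, (m B + m B), fun A _ hA a b c d hno => ?_⟩
  have key : ∀ B : BStr L, ∃ G : Finset A, G.card ≤ m B + m B ∧
      ∀ h : A → Bool, HomOn B (Cl G) h → h a = h b → h c = h d := by
    intro B
    obtain ⟨G1, g1, _, _, _, _, w1⟩ := hm B A hA c a b d (fun h hh h1 h2 => by
      rw [hno B h hh h1, h2])
    obtain ⟨G2, g2, _, _, _, _, w2⟩ := hm B A hA d a b c (fun h hh h1 h2 => by
      rw [← hno B h hh h1, h2])
    refine ⟨G1 ∪ G2, (Finset.card_union_le _ _).trans (Nat.add_le_add g1 g2),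
      fun h hh hab => ?_⟩
    have u1 := w1 h (hh.mono (Cl_mono Finset.subset_union_left)) hab
    have u2 := w2 h (hh.mono (Cl_mono Finset.subset_union_right)) hab
    revert u1 u2
    cases h a <;> cases h c <;> cases h d <;> simp
  choose G hG hw using key
  refine ⟨{a, b, c, d} ∪ Finset.univ.biUnion G, ?_, by simp, by simp, by simp, by simp,
    fun B h hh hab => ?_⟩
  · refine (Finset.card_union_le _ _).trans (Nat.add_le_add (card4 _ _ _ _) ?_)
    refine Finset.card_biUnion_le.trans ?_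
    exact Finset.sum_le_sum fun B _ => hG B
  · refine hw B h (hh.mono (Cl_mono ?_)) hab
    refine Finset.Subset.trans ?_ Finset.subset_union_right
    exact Finset.subset_biUnion_of_mem G (Finset.mem_univ B)

section Sub

variable {S : Type} [L.Structure S]

/-- extension of a homomorphism on a subalgebra by junk -/
theorem extend_hom {T : L.Substructure S} {B : BStr L} {h : T → Bool} (hh : IsHom B h) :
    ∃ h' : S → Bool, HomOn B T h' ∧ ∀ x : T, h' x = h x := by
  classical
  refine ⟨fun x => if hx : x ∈ T then h ⟨x, hx⟩ else false, fun n f x hx => ?_, fun x => ?_⟩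
  · have hm : funMap f x ∈ T := Substructure.fun_mem _ f x hx
    have h1 := hh n f (fun i => ⟨x i, hx i⟩)
    have h2 : (funMap f (fun i => (⟨x i, hx i⟩ : T)) : T) = ⟨funMap f x, hm⟩ := rfl
    rw [h2] at h1
    beta_reduce
    rw [dif_pos hm, h1]
    congr 1
    funext i
    rw [dif_pos (hx i)]
  · beta_reduce
    rw [dif_pos x.2]

theorem sep_sub {T : L.Substructure S} (hT : Sep2 L T) {c d : S} (hc : c ∈ T) (hd : d ∈ T)
    (hcd : c ≠ d) : ∃ (B : BStr L) (h : S → Bool), HomOn B T h ∧ h c ≠ h d := by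
  obtain ⟨C, h, hh, hne⟩ := hT ⟨c, hc⟩ ⟨d, hd⟩ (fun h => hcd (congrArg Subtype.val h))
  obtain ⟨h', hh', he⟩ := extend_hom hh
  refine ⟨C, h', hh', ?_⟩
  rw [he ⟨c, hc⟩, he ⟨d, hd⟩]
  exact hne

theorem star_sub {M : ℕ} (hM : ∀ (A : Type) [L.Structure A], Sep2 L A → ∀ a b c d : A,
      (∀ (B : BStr L) (h : A → Bool), IsHom B h → h a = h b → h c = h d) →
      ∃ G : Finset A, G.card ≤ M ∧ a ∈ G ∧ b ∈ G ∧ c ∈ G ∧ d ∈ G ∧
        ∀ (B : BStr L) (h : A → Bool), HomOn B (Cl G) h → h a = h b → h c = h d)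
    {T : L.Substructure S} (hT : Sep2 L T) {a b c d : S} (ha : a ∈ T) (hb : b ∈ T) (hc : c ∈ T)
    (hd : d ∈ T)
    (h : ∀ (B : BStr L) (h : S → Bool), HomOn B T h → h a = h b → h c = h d) :
    ∃ G : Finset S, G.card ≤ M ∧ a ∈ G ∧ b ∈ G ∧ c ∈ G ∧ d ∈ G ∧
      ∀ (B : BStr L) (h : S → Bool), HomOn B (Cl G) h → h a = h b → h c = h d := by
  classical
  obtain ⟨G, hG, ga, gb, gc, gd, hw⟩ := hM T hT ⟨a, ha⟩ ⟨b, hb⟩ ⟨c, hc⟩ ⟨d, hd⟩
    (fun B k hk hab => by
      obtain ⟨k', hk', he⟩ := extend_hom hk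
      have := h B k' hk' (by rw [he ⟨a, ha⟩, he ⟨b, hb⟩]; exact hab)
      rwa [he ⟨c, hc⟩, he ⟨d, hd⟩] at this)
  refine ⟨G.image Subtype.val, Finset.card_image_le.trans hG,
    Finset.mem_image.2 ⟨_, ga, rfl⟩, Finset.mem_image.2 ⟨_, gb, rfl⟩,
    Finset.mem_image.2 ⟨_, gc, rfl⟩, Finset.mem_image.2 ⟨_, gd, rfl⟩, fun B k hk hab => ?_⟩
  have hmem : ∀ x : T, x ∈ (Cl G : L.Substructure T) →
      (x : S) ∈ (Cl (G.image Subtype.val) : L.Substructure S) := by
    have hle : (Cl G : L.Substructure T) ≤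
        (Cl (G.image Subtype.val) : L.Substructure S).comap T.subtype.toHom := by
      refine Substructure.closure_le.2 fun y hy => ?_
      exact mem_Cl (Finset.mem_image.2 ⟨y, by exact_mod_cast hy, rfl⟩)
    intro x hx
    exact hle hx
  refine hw B (fun x => k x) (fun n f x hx => ?_) hab
  exact hk n f (fun i => (x i : S)) fun i => hmem _ (hx i)

end Sub

end Pool.Agent.H34.Park
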