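import Pool.Agent.H34.Park.Aff

/-!
# The essentially unary case
-/

set_option autoImplicit false

open FirstOrder FirstOrder.Language FirstOrder.Language.Structure

namespace Pool.Agent.H34.Park

variable {L : FirstOrder.Language.{0, 0}}

/-- essentially unary operations -/
def UnOp {n : ℕ} (F : (Fin n → Bool) → Bool) : Prop :=
  (∃ β, ∀ v, F v = β) ∨ ∃ (j : Fin n) (β : Bool), ∀ v, F v = xor β (v j)

theorem un_inv {u : Bool → Bool} {κ : Bool} {α : Type} {F p : α → Bool}
    (h : ∀ v, u (F v) = xor κ (p v)) (h0 : ∃ v, p v = false) (h1 : ∃ v, p v = true) :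
    ∃ β, ∀ v, F v = xor β (p v) := by
  obtain ⟨v0, h0⟩ := h0
  obtain ⟨v1, h1⟩ := h1
  have hne : u false ≠ u true := by
    intro he
    have e0 := h v0
    have e1 := h v1
    rw [h0] at e0
    rw [h1] at e1
    have hu : ∀ x, u x = u false := by
      intro x
      cases x
      · rfl
      · exact he.symm
    rw [hu] at e0 e1
    rw [e0] at e1
    revert e1
    cases κ <;> decide
  rcases bool_fun u hne with h2 | h2
  · exact ⟨κ, fun v => by rw [← h v, h2]⟩
  · refine ⟨!κ, fun v => ?_⟩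
    have := h v
    rw [h2] at this
    revert this
    cases F v <;> cases κ <;> cases p v <;> decide

theorem un_survivor {B C : BStr L} (h : PT B C) {n : ℕ} (f : L.Functions n) {j : Fin n} {β : Bool}
    (hf : ∀ v, B n f v = xor β (v j)) : ∃ β', ∀ v, C n f v = xor β' (v j) := by
  cases β
  · rcases h n (basic f) j (fun v => by rw [ev_basic, hf, Bool.false_xor]) with h1 | h1
    · exact ⟨false, fun v => by rw [← ev_basic C f v, h1, Bool.false_xor]⟩
    · exact ⟨true, fun v => by rw [← ev_basic C f v, h1, Bool.true_xor]⟩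
  · have h2 : ∃ κ, ∀ v, C n f (fun _ => C n f v) = xor κ (v j) := by
      rcases h n (Term.func f (fun _ => basic f)) j (fun v => by
        rw [ev_func, hf]
        simp only [ev_basic]
        rw [hf]
        cases v j <;> rfl) with h1 | h1
      · refine ⟨false, fun v => ?_⟩
        have := h1 v
        rw [ev_func] at this
        simp only [ev_basic] at this
        rw [this, Bool.false_xor]
      · refine ⟨true, fun v => ?_⟩
        have := h1 v
        rw [ev_func] at this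
        simp only [ev_basic] at this
        rw [this, Bool.true_xor]
    obtain ⟨κ, hκ⟩ := h2
    exact un_inv (u := fun x => C n f (fun _ => x)) (F := C n f) (p := fun v => v j) hκ
      ⟨fun _ => false, rfl⟩ ⟨fun _ => true, rfl⟩

theorem tau_survivor {B C : BStr L} (h : PT B C) {τ : L.Term (Fin 1)} {β : Bool}
    (hτ : ∀ a, ev B τ (fun _ => a) = xor β a) : ∃ κ, ∀ a, ev C τ (fun _ => a) = xor κ a := by
  have hv : ∀ v : Fin 1 → Bool, v = fun _ => v 0 := by
    intro v
    funext i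
    fin_cases i
    rfl
  cases β
  · rcases h 1 τ 0 (fun v => by rw [hv v, hτ, Bool.false_xor]) with h1 | h1
    · exact ⟨false, fun a => by rw [h1, Bool.false_xor]⟩
    · exact ⟨true, fun a => by rw [h1, Bool.true_xor]⟩
  · have h2 : ∃ κ, ∀ a, ev C τ (fun _ => ev C τ (fun _ => a)) = xor κ a := by
      rcases h 1 (τ.subst fun _ => τ) 0 (fun v => by
        rw [ev_subst, hv v, hτ, hτ]
        cases v 0 <;> rfl) with h1 | h1
      · refine ⟨false, fun a => ?_⟩
        have := h1 (fun _ => a)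
        rw [ev_subst] at this
        rw [this, Bool.false_xor]
      · refine ⟨true, fun a => ?_⟩
        have := h1 (fun _ => a)
        rw [ev_subst] at this
        rw [this, Bool.true_xor]
    obtain ⟨κ, hκ⟩ := h2
    exact un_inv (u := fun x => ev C τ (fun _ => x)) (F := fun a => ev C τ (fun _ => a))
      (p := fun a => a) hκ ⟨false, rfl⟩ ⟨true, rfl⟩

section

variable {A : Type} [L.Structure A]

/-- forced relation between the values of homomorphisms -/
def Nr (B : BStr L) (x y : A) (β : Bool) : Prop :=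
  ∃ τ : L.Term (Fin 1), (∀ a, ev B τ (fun _ => a) = xor β a) ∧
    ∀ (C : BStr L) (g : A → Bool), IsHom C g → PT B C → g y = ev C τ (fun _ => g x)

theorem Nr.refl (B : BStr L) (x : A) : Nr B x x false :=
  ⟨Term.var 0, fun a => (Bool.false_xor a).symm, fun _ _ _ _ => rfl⟩

theorem Nr.symm {B : BStr L} {x y : A} {β : Bool} (h : Nr B x y β) : Nr B y x β := by
  obtain ⟨τ, h1, h2⟩ := h
  refine ⟨τ, h1, fun C g hg hP => ?_⟩
  obtain ⟨κ, hκ⟩ := tau_survivor hP h1
  rw [h2 C g hg hP, hκ, hκ, xor_xor_self]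

theorem Nr.trans {B : BStr L} {x y z : A} {β γ : Bool} (h : Nr B x y β) (h' : Nr B y z γ) :
    Nr B x z (xor β γ) := by
  obtain ⟨τ, h1, h2⟩ := h
  obtain ⟨σ, h3, h4⟩ := h'
  refine ⟨σ.subst fun _ => τ, fun a => ?_, fun C g hg hP => ?_⟩
  · rw [ev_subst, h1, h3]
    cases β <;> cases γ <;> cases a <;> rfl
  · rw [ev_subst, ← h2 C g hg hP]
    exact h4 C g hg hP

theorem Nr.edge {B : BStr L} {n : ℕ} (f : L.Functions n) {j : Fin n} {β : Bool}
    (hf : ∀ v, B n f v = xor β (v j)) (x : Fin n → A) : Nr B (x j) (funMap f x) β := by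
  refine ⟨Term.func f (fun _ => Term.var 0), fun a => ?_, fun C g hg hP => ?_⟩
  · rw [ev_func, hf, ev_var]
  · obtain ⟨β', hβ⟩ := un_survivor hP f hf
    rw [ev_func, hβ, ev_var, hg, hβ]

theorem Nr.hom [Finite (BStr L)] (hA : Sep2 L A) {B : BStr L} {x y : A} {β : Bool}
    (h : Nr B x y β) {T : L.Substructure A} {g : A → Bool} (hg : HomOn B T g) (hx : x ∈ T)
    (hy : y ∈ T) : g y = xor β (g x) := by
  obtain ⟨l, r, hlr⟩ := exists_eqPair B
  obtain ⟨τ, h1, h2⟩ := h
  have hm : τ.realize (fun _ => x) ∈ T := Term.realize_mem τ _ fun _ => hx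
  have h3 := hlr.hom (hlr.eq_of_eq hA (x := τ.realize (fun _ => x)) (y := y) fun C g hg hP => by
    rw [hg.realize, h2 C g hg hP]) hg hm hy
  rw [hg.realize τ _ fun _ => hx, h1] at h3
  exact h3.symm

/-- prescribed values -/
def Pres (B : BStr L) (κ : Bool) (c a1 a2 a3 : A) (y : A) (γ : Bool) : Prop :=
  (y = c ∧ γ = !κ) ∨ ((y = a1 ∨ y = a2 ∨ y = a3) ∧ γ = κ) ∨
    ∃ (n : ℕ) (f : L.Functions n) (x : Fin n → A), (∀ v, B n f v = γ) ∧ y = funMap f x

theorem Pres.witness {N : ℕ} (hN : ∀ n (_ : L.Functions n), n ≤ N) {B : BStr L} {κ : Bool}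
    {c a1 a2 a3 y : A} {γ : Bool} (h : Pres B κ c a1 a2 a3 y γ) :
    ∃ G : Finset A, G.card ≤ N ∧ ∀ T : L.Substructure A, (G : Set A) ⊆ T → c ∈ T → a1 ∈ T →
      a2 ∈ T → a3 ∈ T → y ∈ T ∧ ∀ g : A → Bool, HomOn B T g → g c = (!κ) → g a1 = κ →
        g a2 = κ → g a3 = κ → g y = γ := by
  classical
  rcases h with ⟨rfl, rfl⟩ | ⟨h1, rfl⟩ | ⟨n, f, x, hf, rfl⟩
  · exact ⟨∅, by simp, fun T _ hc _ _ _ => ⟨hc, fun g _ h _ _ _ => h⟩⟩
  · refine ⟨∅, by simp, fun T _ hc k1 k2 k3 => ⟨?_, fun g _ _ g1 g2 g3 => ?_⟩⟩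
    · rcases h1 with rfl | rfl | rfl <;> assumption
    · rcases h1 with rfl | rfl | rfl <;> assumption
  · refine ⟨Finset.univ.image x, ?_, fun T hT _ _ _ _ => ⟨?_, fun g hg _ _ _ _ => ?_⟩⟩
    · refine Finset.card_image_le.trans ?_
      rw [Finset.card_univ, Fintype.card_fin]
      exact hN n f
    · exact Substructure.fun_mem _ f x fun i => hT (by simp)
    · rw [hg n f x fun i => hT (by simp), hf]

theorem un_main [Finite (BStr L)] {N : ℕ} (hN : ∀ n (_ : L.Functions n), n ≤ N)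
    (hA : Sep2 L A) {B : BStr L} (hun : ∀ n (f : L.Functions n), UnOp (B n f)) (κ : Bool)
    (c a1 a2 a3 : A) :
    (∃ h : A → Bool, IsHom B h ∧ h c = (!κ) ∧ h a1 = κ ∧ h a2 = κ ∧ h a3 = κ) ∨
    ∃ G : Finset A, G.card ≤ 5 + 2 * N ∧ c ∈ G ∧ a1 ∈ G ∧ a2 ∈ G ∧ a3 ∈ G ∧
      ∀ h : A → Bool, HomOn B (Cl G) h → h a1 = κ → h a2 = κ → h a3 = κ → h c = κ := by
  classical
  by_cases H1 : ∃ x : A, Nr B x x true
  · obtain ⟨x, hx⟩ := H1
    right
    refine ⟨insert x {c, a1, a2, a3}, ?_, by simp, by simp, by simp, by simp,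
      fun h hh _ _ _ => ?_⟩
    · refine (Finset.card_insert_le _ _).trans ?_
      have := card4 c a1 a2 a3
      omega
    · exfalso
      have mx : x ∈ (Cl (insert x {c, a1, a2, a3} : Finset A) : L.Substructure A) :=
        mem_Cl (by simp)
      have := hx.hom hA hh mx mx
      revert this
      cases h x <;> decide
  by_cases H2 : ∃ y γ y' γ', Pres B κ c a1 a2 a3 y γ ∧ Pres B κ c a1 a2 a3 y' γ' ∧
      Nr B y y' (!(xor γ γ'))
  · obtain ⟨y, γ, y', γ', hy, hy', hN'⟩ := H2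
    right
    obtain ⟨G0, hG0, hw0⟩ := hy.witness hN
    obtain ⟨G1, hG1, hw1⟩ := hy'.witness hN
    refine ⟨{c, a1, a2, a3} ∪ (G0 ∪ G1), ?_, by simp, by simp, by simp, by simp,
      fun h hh k1 k2 k3 => ?_⟩
    · refine (Finset.card_union_le _ _).trans ?_
      have := card4 c a1 a2 a3
      have := Finset.card_union_le G0 G1
      omega
    · have mc : c ∈ (Cl ({c, a1, a2, a3} ∪ (G0 ∪ G1) : Finset A) : L.Substructure A) :=
        mem_Cl (by simp)
      have m1 : a1 ∈ (Cl ({c, a1, a2, a3} ∪ (G0 ∪ G1) : Finset A) : L.Substructure A) :=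
        mem_Cl (by simp)
      have m2 : a2 ∈ (Cl ({c, a1, a2, a3} ∪ (G0 ∪ G1) : Finset A) : L.Substructure A) :=
        mem_Cl (by simp)
      have m3 : a3 ∈ (Cl ({c, a1, a2, a3} ∪ (G0 ∪ G1) : Finset A) : L.Substructure A) :=
        mem_Cl (by simp)
      obtain ⟨my, hy2⟩ := hw0 (Cl ({c, a1, a2, a3} ∪ (G0 ∪ G1) : Finset A)) (fun z hz => by
        refine mem_Cl ?_
        simp only [Finset.mem_union]
        exact Or.inr (Or.inl (by exact_mod_cast hz))) mc m1 m2 m3
      obtain ⟨my', hy2'⟩ := hw1 (Cl ({c, a1, a2, a3} ∪ (G0 ∪ G1) : Finset A)) (fun z hz => by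
        refine mem_Cl ?_
        simp only [Finset.mem_union]
        exact Or.inr (Or.inr (by exact_mod_cast hz))) mc m1 m2 m3
      by_contra hc
      have hc' : h c = !κ := by
        revert hc
        cases h c <;> cases κ <;> simp
      have e1 := hy2 h hh hc' k1 k2 k3
      have e2 := hy2' h hh hc' k1 k2 k3
      have e3 := hN'.hom hA hh my my'
      rw [e1, e2] at e3
      revert e3
      cases γ <;> cases γ' <;> decide
  left
  push Not at H1 H2
  have huniq : ∀ {x y : A} {β β' : Bool}, Nr B x y β → Nr B x y β' → β = β' := by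
    intro x y β β' h h'
    by_contra hne
    refine H1 x ?_
    have := h.trans h'.symm
    have h2 : xor β β' = true := by
      revert hne
      cases β <;> cases β' <;> decide
    rwa [h2] at this
  let S : Setoid A :=
    { r := fun x y => ∃ β, Nr B x y β
      iseqv := ⟨fun x => ⟨false, Nr.refl B x⟩, fun ⟨β, h⟩ => ⟨β, h.symm⟩,
        fun ⟨β, h⟩ ⟨γ, h'⟩ => ⟨_, h.trans h'⟩⟩ }
  have hex : ∀ q : Quotient S, ∃ p : A × Bool, Quotient.mk S p.1 = q ∧
      ((∃ y γ, Quotient.mk S y = q ∧ Pres B κ c a1 a2 a3 y γ) →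
        Pres B κ c a1 a2 a3 p.1 p.2) := by
    intro q
    by_cases hq : ∃ y γ, Quotient.mk S y = q ∧ Pres B κ c a1 a2 a3 y γ
    · obtain ⟨y, γ, h1, h2⟩ := hq
      exact ⟨(y, γ), h1, fun _ => h2⟩
    · obtain ⟨x, hx⟩ := Quotient.exists_rep q
      exact ⟨(x, false), hx, fun h => absurd h hq⟩
  choose P hP1 hP2 using hex
  have hb : ∀ x : A, ∃ β, Nr B (P (Quotient.mk S x)).1 x β := fun x =>
    Quotient.exact (hP1 (Quotient.mk S x))
  choose b hb using hb
  obtain ⟨h, hh⟩ : ∃ h : A → Bool, ∀ x, h x = xor (P (Quotient.mk S x)).2 (b x) :=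
    ⟨_, fun _ => rfl⟩
  have hstep : ∀ {x y : A} {δ : Bool}, Nr B x y δ → h y = xor δ (h x) := by
    intro x y δ hxy
    have hq : Quotient.mk S x = Quotient.mk S y := Quotient.sound ⟨δ, hxy⟩
    have h1 := hb y
    rw [← hq] at h1
    have h2 := huniq ((hb x).trans hxy) h1
    rw [hh, hh, ← h2, ← hq]
    cases (P (Quotient.mk S x)).2 <;> cases b x <;> cases δ <;> rfl
  have hpres : ∀ {y : A} {γ : Bool}, Pres B κ c a1 a2 a3 y γ → h y = γ := by
    intro y γ hy
    have h1 := hP2 (Quotient.mk S y) ⟨y, γ, rfl, hy⟩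
    by_contra hne
    refine H2 _ _ y γ h1 hy ?_
    have h2 : b y = !(xor (P (Quotient.mk S y)).2 γ) := by
      rw [hh] at hne
      revert hne
      cases (P (Quotient.mk S y)).2 <;> cases b y <;> cases γ <;> decide
    rw [← h2]
    exact hb y
  refine ⟨h, fun n f x => ?_, hpres (Or.inl ⟨rfl, rfl⟩),
    hpres (Or.inr (Or.inl ⟨Or.inl rfl, rfl⟩)),
    hpres (Or.inr (Or.inl ⟨Or.inr (Or.inl rfl), rfl⟩)),
    hpres (Or.inr (Or.inl ⟨Or.inr (Or.inr rfl), rfl⟩))⟩
  rcases hun n f with ⟨β, hβ⟩ | ⟨j, β, hβ⟩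
  · rw [hβ]
    exact hpres (Or.inr (Or.inr ⟨n, f, x, hβ, rfl⟩))
  · rw [hβ]
    exact hstep (Nr.edge f hβ x)

end

/-- the essentially unary case -/
theorem good_un [Finite (BStr L)] {N : ℕ} (hN : ∀ n (_ : L.Functions n), n ≤ N) {B : BStr L}
    (hun : ∀ n (f : L.Functions n), UnOp (B n f)) : Good B := by
  classical
  refine ⟨(5 + 2 * N) + (5 + 2 * N), fun A _ hA c a1 a2 a3 hno => ?_⟩
  have key : ∀ κ : Bool, ∃ G : Finset A, G.card ≤ 5 + 2 * N ∧ c ∈ G ∧ a1 ∈ G ∧ a2 ∈ G ∧ a3 ∈ G ∧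
      ∀ h : A → Bool, HomOn B (Cl G) h → h a1 = κ → h a2 = κ → h a3 = κ → h c = κ := by
    intro κ
    rcases un_main hN hA hun κ c a1 a2 a3 with ⟨h, hh, kc, k1, k2, k3⟩ | h
    · exfalso
      have := hno h hh (by rw [k1, k2]) (by rw [k1, k3])
      rw [kc, k1] at this
      revert this
      cases κ <;> decide
    · exact h
  obtain ⟨G1, hG1, c1, a11, a12, a13, h1⟩ := key false
  obtain ⟨G2, hG2, c2, a21, a22, a23, h2⟩ := key true
  refine ⟨G1 ∪ G2, (Finset.card_union_le _ _).trans (Nat.add_le_add hG1 hG2),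
    Finset.mem_union_left _ c1, Finset.mem_union_left _ a11, Finset.mem_union_left _ a12,
    Finset.mem_union_left _ a13, fun h hh h12 h13 => ?_⟩
  have u1 : HomOn B (Cl G1) h := hh.mono
    (Substructure.closure_mono (by
      rw [Finset.coe_union]
      exact Set.subset_union_left))
  have u2 : HomOn B (Cl G2) h := hh.mono
    (Substructure.closure_mono (by
      rw [Finset.coe_union]
      exact Set.subset_union_right))
  cases hv : h a1
  · exact h1 h u1 hv (by rw [← h12, hv]) (by rw [← h13, hv])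
  · exact h2 h u2 hv (by rw [← h12, hv]) (by rw [← h13, hv])

end Pool.Agent.H34.Park
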